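import Mathlib

/-!
Modules over `k[x, y] / (x ^ 2, y ^ 2)`, `k` the field with two elements (the group algebra of the
four-group), as vector spaces with two commuting endomorphisms of square zero; the dimension of the
part without free summands.
-/

set_option autoImplicit false

namespace Pool.Agent.R793.BS

open Module TensorProduct

/-- The field with two elements. -/
abbrev k : Type := ZMod 2

/-- Two commuting endomorphisms of square zero. -/
structure NM (V : Type) [AddCommGroup V] [Module k V] where
  /-- The first endomorphism. -/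
  x : V →ₗ[k] V
  /-- The second endomorphism. -/
  y : V →ₗ[k] V
  xx : ∀ v, x (x v) = 0
  yy : ∀ v, y (y v) = 0
  xy : ∀ v, x (y v) = y (x v)

theorem two_zero {V : Type} [AddCommGroup V] [Module k V] (v : V) : v + v = 0 := by
  rw [← two_smul k v]
  have : (2 : k) = 0 := rfl
  rw [this, zero_smul]

theorem neg_eq {V : Type} [AddCommGroup V] [Module k V] (v : V) : -v = v :=
  neg_eq_of_add_eq_zero_left (two_zero v)

namespace NM

section Basic

variable {V : Type} [AddCommGroup V] [Module k V] (m : NM V)

/-- The norm. -/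
def nu : V →ₗ[k] V := m.x ∘ₗ m.y

theorem nu_apply (v : V) : m.nu v = m.x (m.y v) := rfl

/-- The rank of the norm. -/
noncomputable def rk : ℕ := finrank k (LinearMap.range m.nu)

/-- The radical. -/
def jay : Submodule k V := LinearMap.range m.x ⊔ LinearMap.range m.y

/-- The dimension of the part without free summands. -/
noncomputable def gam : ℤ := (finrank k V : ℤ) - 4 * (m.rk : ℤ)

/-- The dimension of the part without free summands of the first syzygy. -/
noncomputable def del : ℤ := 3 * (finrank k V : ℤ) - 4 * (finrank k m.jay : ℤ)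

theorem jay_le_ker : m.jay ≤ LinearMap.ker m.nu := by
  unfold jay
  rw [sup_le_iff]
  constructor
  · rintro _ ⟨v, rfl⟩
    rw [LinearMap.mem_ker, nu_apply, ← m.xy, m.xx]
  · rintro _ ⟨v, rfl⟩
    rw [LinearMap.mem_ker, nu_apply, m.yy, map_zero]

theorem x_mem (v : V) : m.x v ∈ m.jay := Submodule.mem_sup_left ⟨v, rfl⟩

theorem y_mem (v : V) : m.y v ∈ m.jay := Submodule.mem_sup_right ⟨v, rfl⟩

/-- The free module on `H`. -/
def fr (H : Type) [AddCommGroup H] [Module k H] : NM (H × H × H × H) where
  x :=
    { toFun := fun v => (0, v.1, 0, v.2.2.1)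
      map_add' := fun v w => by simp
      map_smul' := fun c v => by simp }
  y :=
    { toFun := fun v => (0, 0, v.1, v.2.1)
      map_add' := fun v w => by simp
      map_smul' := fun c v => by simp }
  xx _ := rfl
  yy _ := rfl
  xy _ := rfl

/-- Maps of modules. -/
def Eqv {W : Type} [AddCommGroup W] [Module k W] (n : NM W) (f : V →ₗ[k] W) : Prop :=
  (∀ v, f (m.x v) = n.x (f v)) ∧ (∀ v, f (m.y v) = n.y (f v))

variable {H : Type} [AddCommGroup H] [Module k H] (l : H →ₗ[k] V)

/-- The map from the free module. -/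
def ext : (H × H × H × H) →ₗ[k] V where
  toFun v := l v.1 + m.x (l v.2.1) + m.y (l v.2.2.1) + m.x (m.y (l v.2.2.2))
  map_add' v w := by
    simp only [Prod.fst_add, Prod.snd_add, map_add]
    abel
  map_smul' c v := by
    simp only [Prod.smul_fst, Prod.smul_snd, map_smul, smul_add, RingHom.id_apply]

theorem ext_eqv : (fr H).Eqv m (m.ext l) := by
  constructor
  · rintro ⟨a, b, c, d⟩
    change l 0 + m.x (l a) + m.y (l 0) + m.x (m.y (l c)) =
      m.x (l a + m.x (l b) + m.y (l c) + m.x (m.y (l d)))
    simp only [map_add, map_zero, m.xx]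
    abel
  · rintro ⟨a, b, c, d⟩
    change l 0 + m.x (l 0) + m.y (l a) + m.x (m.y (l b)) =
      m.y (l a + m.x (l b) + m.y (l c) + m.x (m.y (l d)))
    simp only [map_add, map_zero, m.yy, ← m.xy]
    abel

theorem ext_injective (h : ∀ v : H, m.nu (l v) = 0 → v = 0) : Function.Injective (m.ext l) := by
  rw [injective_iff_map_eq_zero]
  rintro ⟨a, b, c, d⟩ hv
  change l a + m.x (l b) + m.y (l c) + m.x (m.y (l d)) = 0 at hv
  have ha : a = 0 := by
    apply h
    have h1 := congrArg m.nu hv
    simp only [map_add, nu_apply, map_zero, ← m.xy, m.xx, m.yy, add_zero] at h1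
    rw [nu_apply]
    simpa using h1
  subst ha
  have hb : b = 0 := by
    apply h
    have h1 := congrArg m.y hv
    simp only [map_add, map_zero, ← m.xy, m.yy, add_zero, zero_add] at h1
    rw [nu_apply]
    exact h1
  subst hb
  have hc : c = 0 := by
    apply h
    have h1 := congrArg m.x hv
    simp only [map_add, map_zero, m.xx, add_zero, zero_add] at h1
    rw [nu_apply]
    exact h1
  subst hc
  have hd : d = 0 := by
    apply h
    simp only [map_zero, zero_add] at hv
    exact hv
  subst hd
  rfl

end Basic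

section Rank

variable {V : Type} [AddCommGroup V] [Module k V] [FiniteDimensional k V] (m : NM V)

/-- A section of the norm. -/
theorem exists_sec : ∃ s : LinearMap.range m.nu →ₗ[k] V, ∀ w, m.nu (s w) = w := by
  obtain ⟨s, hs⟩ := m.nu.rangeRestrict.exists_rightInverse_of_surjective
    (LinearMap.range_rangeRestrict _)
  refine ⟨s, fun w => ?_⟩
  have h := LinearMap.congr_fun hs w
  exact congrArg Subtype.val h

theorem four_mul_rk_le : 4 * m.rk ≤ finrank k V := by
  obtain ⟨s, hs⟩ := m.exists_sec
  have h := LinearMap.finrank_le_finrank_of_injective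
    (m.ext_injective s (fun v hv => Subtype.ext ((hs v).symm.trans hv)))
  rw [finrank_prod, finrank_prod, finrank_prod] at h
  unfold rk
  omega

theorem three_mul_rk_le : 3 * m.rk ≤ finrank k m.jay := by
  obtain ⟨s, hs⟩ := m.exists_sec
  have hi := m.ext_injective s (fun v hv => Subtype.ext ((hs v).symm.trans hv))
  let R := LinearMap.range m.nu
  let f : (R × R × R) →ₗ[k] m.jay :=
    LinearMap.codRestrict m.jay ((m.ext s).comp (LinearMap.inr k R (R × R × R))) (by
      rintro ⟨b, c, d⟩
      change s 0 + m.x (s b) + m.y (s c) + m.x (m.y (s d)) ∈ m.jay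
      rw [map_zero, zero_add]
      exact add_mem (add_mem (m.x_mem _) (m.y_mem _)) (m.x_mem _))
  have hf : Function.Injective f := by
    intro v w hvw
    have h1 : m.ext s (0, v) = m.ext s (0, w) := congrArg Subtype.val hvw
    exact (Prod.ext_iff.mp (hi h1)).2
  have h := LinearMap.finrank_le_finrank_of_injective hf
  rw [finrank_prod, finrank_prod] at h
  change 3 * finrank k R ≤ _
  omega

theorem gam_nonneg : 0 ≤ m.gam := by
  unfold gam
  have := m.four_mul_rk_le
  omega

theorem rk_add_ker : m.rk + finrank k (LinearMap.ker m.nu) = finrank k V :=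
  LinearMap.finrank_range_add_finrank_ker m.nu

theorem jay_eq_ker (h : m.gam = 0) : m.jay = LinearMap.ker m.nu := by
  apply Submodule.eq_of_le_of_finrank_le m.jay_le_ker
  have h1 := m.rk_add_ker
  have h2 := m.three_mul_rk_le
  unfold gam at h
  omega

end Rank

section Exact

variable {A F B : Type} [AddCommGroup A] [Module k A] [FiniteDimensional k A]
  [AddCommGroup F] [Module k F] [FiniteDimensional k F]
  [AddCommGroup B] [Module k B] [FiniteDimensional k B]
  (a : NM A) (f : NM F) (b : NM B) (i : A →ₗ[k] F) (p : F →ₗ[k] B)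

theorem gam_eq_del (hi : a.Eqv f i) (hp : f.Eqv b p) (hinj : Function.Injective i)
    (hsur : Function.Surjective p) (hex : LinearMap.range i = LinearMap.ker p)
    (hf : f.gam = 0) : a.gam = b.del := by
  have h1 : finrank k A + finrank k B = finrank k F := by
    rw [← LinearMap.finrank_range_add_finrank_ker p, ← hex,
      LinearMap.finrank_range_of_inj hinj, LinearMap.range_eq_top.mpr hsur, finrank_top]
    omega
  -- the kernel of the norm of `A`
  have hj := f.jay_eq_ker hf
  have hmap : f.jay.map p = b.jay := by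
    unfold jay
    rw [Submodule.map_sup]
    congr 1
    · apply le_antisymm
      · rintro _ ⟨_, ⟨v, rfl⟩, rfl⟩
        exact ⟨p v, (hp.1 v).symm⟩
      · rintro _ ⟨w, rfl⟩
        obtain ⟨v, rfl⟩ := hsur w
        exact ⟨f.x v, ⟨v, rfl⟩, hp.1 v⟩
    · apply le_antisymm
      · rintro _ ⟨_, ⟨v, rfl⟩, rfl⟩
        exact ⟨p v, (hp.2 v).symm⟩
      · rintro _ ⟨w, rfl⟩
        obtain ⟨v, rfl⟩ := hsur w
        exact ⟨f.y v, ⟨v, rfl⟩, hp.2 v⟩
  let g : f.jay →ₗ[k] B := p.domRestrict f.jay
  have hg : finrank k (LinearMap.range g) = finrank k b.jay := by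
    have : LinearMap.range g = b.jay := by
      rw [← hmap]
      exact LinearMap.range_domRestrict _ _
    rw [this]
  have h2 := LinearMap.finrank_range_add_finrank_ker g
  have h3 : finrank k (LinearMap.ker g) = finrank k (LinearMap.ker a.nu) := by
    -- the map from `ker a.nu` to `ker g`
    have hmem : ∀ v : LinearMap.ker a.nu, i v ∈ f.jay := by
      intro v
      rw [hj, LinearMap.mem_ker, nu_apply, ← hi.2, ← hi.1]
      have : a.x (a.y v) = 0 := v.2
      rw [this, map_zero]
    let t : LinearMap.ker a.nu →ₗ[k] f.jay :=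
      LinearMap.codRestrict f.jay (i.comp (LinearMap.ker a.nu).subtype) hmem
    have ht : LinearMap.range t = LinearMap.ker g := by
      apply le_antisymm
      · rintro _ ⟨v, rfl⟩
        rw [LinearMap.mem_ker]
        change p (i v) = 0
        have : i v ∈ LinearMap.ker p := by rw [← hex]; exact ⟨v, rfl⟩
        exact this
      · rintro ⟨w, hw⟩ hw2
        have hw3 : w ∈ LinearMap.ker p := hw2
        rw [← hex] at hw3
        obtain ⟨v, rfl⟩ := hw3
        have hv : v ∈ LinearMap.ker a.nu := by
          rw [LinearMap.mem_ker]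
          apply hinj
          rw [nu_apply, hi.1, hi.2, map_zero]
          rw [hj] at hw
          exact hw
        exact ⟨⟨v, hv⟩, rfl⟩
    have htinj : Function.Injective t := by
      intro v w hvw
      apply Subtype.ext
      apply hinj
      exact congrArg Subtype.val hvw
    rw [← ht]
    exact LinearMap.finrank_range_of_inj htinj
  have h4 := a.rk_add_ker
  have h5 : finrank k f.jay + f.rk = finrank k F := by
    rw [hj]
    have := f.rk_add_ker
    omega
  unfold gam at hf ⊢
  unfold del
  omega

end Exact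

section Iso

variable {V W : Type} [AddCommGroup V] [Module k V] [AddCommGroup W] [Module k W]
  (m : NM V) (n : NM W) (e : V ≃ₗ[k] W)

theorem Eqv.symm (h : m.Eqv n (e : V →ₗ[k] W)) : n.Eqv m (e.symm : W →ₗ[k] V) := by
  constructor
  · intro w
    apply e.injective
    change e (e.symm (n.x w)) = e (m.x (e.symm w))
    have h1 : e (m.x (e.symm w)) = n.x (e (e.symm w)) := h.1 (e.symm w)
    rw [h1, e.apply_symm_apply, e.apply_symm_apply]
  · intro w
    apply e.injective
    change e (e.symm (n.y w)) = e (m.y (e.symm w))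
    have h1 : e (m.y (e.symm w)) = n.y (e (e.symm w)) := h.2 (e.symm w)
    rw [h1, e.apply_symm_apply, e.apply_symm_apply]

theorem rk_iso (h : m.Eqv n (e : V →ₗ[k] W)) : m.rk = n.rk := by
  unfold rk
  have h1 : (LinearMap.range m.nu).map (e : V →ₗ[k] W) = LinearMap.range n.nu := by
    apply le_antisymm
    · rintro _ ⟨_, ⟨v, rfl⟩, rfl⟩
      refine ⟨e v, ?_⟩
      have h2 : e (m.x (m.y v)) = n.x (n.y (e v)) := by
        have := h.1 (m.y v)
        have h3 := h.2 v
        change e (m.x (m.y v)) = n.x (e (m.y v)) at this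
        change e (m.y v) = n.y (e v) at h3
        rw [this, h3]
      exact h2.symm
    · rintro _ ⟨w, rfl⟩
      refine ⟨m.nu (e.symm w), ⟨_, rfl⟩, ?_⟩
      have := h.1 (m.y (e.symm w))
      have h3 := h.2 (e.symm w)
      change e (m.x (m.y (e.symm w))) = n.x (e (m.y (e.symm w))) at this
      change e (m.y (e.symm w)) = n.y (e (e.symm w)) at h3
      change e (m.x (m.y (e.symm w))) = n.x (n.y w)
      rw [this, h3, e.apply_symm_apply]
  rw [← h1]
  exact (LinearEquiv.finrank_eq (e.submoduleMap (LinearMap.range m.nu)))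

theorem gam_iso (h : m.Eqv n (e : V →ₗ[k] W)) : m.gam = n.gam := by
  unfold gam
  rw [rk_iso m n e h, e.finrank_eq]

theorem del_iso (h : m.Eqv n (e : V →ₗ[k] W)) : m.del = n.del := by
  have h1 : m.jay.map (e : V →ₗ[k] W) = n.jay := by
    unfold jay
    rw [Submodule.map_sup]
    congr 1
    · apply le_antisymm
      · rintro _ ⟨_, ⟨v, rfl⟩, rfl⟩
        exact ⟨e v, (h.1 v).symm⟩
      · rintro _ ⟨w, rfl⟩
        refine ⟨m.x (e.symm w), ⟨_, rfl⟩, ?_⟩
        rw [h.1]
        exact congrArg n.x (e.apply_symm_apply w)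
    · apply le_antisymm
      · rintro _ ⟨_, ⟨v, rfl⟩, rfl⟩
        exact ⟨e v, (h.2 v).symm⟩
      · rintro _ ⟨w, rfl⟩
        refine ⟨m.y (e.symm w), ⟨_, rfl⟩, ?_⟩
        rw [h.2]
        exact congrArg n.y (e.apply_symm_apply w)
  unfold del
  rw [← h1, e.finrank_eq]
  have h2 : finrank k (m.jay.map (e : V →ₗ[k] W)) = finrank k m.jay :=
    (LinearEquiv.finrank_eq (e.submoduleMap m.jay)).symm
  rw [h2]

/-- The direct sum. -/
def prod : NM (V × W) where
  x := m.x.prodMap n.x
  y := m.y.prodMap n.y
  xx _ := Prod.ext (m.xx _) (n.xx _)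
  yy _ := Prod.ext (m.yy _) (n.yy _)
  xy _ := Prod.ext (m.xy _) (n.xy _)

theorem rk_prod [FiniteDimensional k V] [FiniteDimensional k W] :
    (m.prod n).rk = m.rk + n.rk := by
  unfold rk
  have h : (m.prod n).nu = m.nu.prodMap n.nu := rfl
  rw [h, LinearMap.range_prodMap]
  have e : ↥((LinearMap.range m.nu).prod (LinearMap.range n.nu)) ≃ₗ[k]
      (LinearMap.range m.nu) × (LinearMap.range n.nu) :=
    { toFun := fun v => (⟨v.1.1, v.2.1⟩, ⟨v.1.2, v.2.2⟩)
      invFun := fun v => ⟨(v.1.1, v.2.1), v.1.2, v.2.2⟩
      map_add' := fun _ _ => rfl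
      map_smul' := fun _ _ => rfl
      left_inv := fun _ => rfl
      right_inv := fun _ => rfl }
  rw [e.finrank_eq, finrank_prod]

theorem gam_prod [FiniteDimensional k V] [FiniteDimensional k W] :
    (m.prod n).gam = m.gam + n.gam := by
  unfold gam
  rw [rk_prod, finrank_prod]
  push_cast
  ring

end Iso

end NM

end Pool.Agent.R793.BS
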