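import Pool.Agent.R793.BS.W

/-!
Representations of the four-group over the field with two elements.
-/

set_option autoImplicit false

namespace Pool.Agent.R793.BS

open Module TensorProduct CategoryTheory CategoryTheory.MonoidalCategory CategoryTheory.Limits

/-- The four-group. -/
abbrev G4 : Type := Multiplicative (ZMod 2) × Multiplicative (ZMod 2)

/-- The first generator. -/
def ga : G4 := (Multiplicative.ofAdd 1, 1)

/-- The second generator. -/
def gb : G4 := (1, Multiplicative.ofAdd 1)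

theorem ga_mul : ga * ga = 1 := rfl

theorem gb_mul : gb * gb = 1 := rfl

theorem ga_gb : ga * gb = gb * ga := rfl

theorem G4_cases (g : G4) : g = 1 ∨ g = ga ∨ g = gb ∨ g = ga * gb := by
  revert g
  decide

/-- The two endomorphisms attached to a representation. -/
def nm (X : Rep.{0} k G4) : NM X.V where
  x := X.ρ ga + LinearMap.id
  y := X.ρ gb + LinearMap.id
  xx v := by
    have h : X.ρ ga (X.ρ ga v) = v := by
      rw [← Module.End.mul_apply, ← map_mul, ga_mul, map_one]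
      rfl
    rw [LinearMap.add_apply, LinearMap.add_apply, LinearMap.id_apply, LinearMap.id_apply, map_add,
      h, add_comm v, two_zero]
  yy v := by
    have h : X.ρ gb (X.ρ gb v) = v := by
      rw [← Module.End.mul_apply, ← map_mul, gb_mul, map_one]
      rfl
    rw [LinearMap.add_apply, LinearMap.add_apply, LinearMap.id_apply, LinearMap.id_apply, map_add,
      h, add_comm v, two_zero]
  xy v := by
    have h : X.ρ ga (X.ρ gb v) = X.ρ gb (X.ρ ga v) := by
      rw [← Module.End.mul_apply, ← map_mul, ga_gb, map_mul]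
      rfl
    simp only [LinearMap.add_apply, LinearMap.id_apply, map_add, h]
    abel

theorem nm_a (X : Rep.{0} k G4) (v : X.V) : (nm X).a v = X.ρ ga v := by
  rw [NM.a_apply]
  change v + (X.ρ ga v + v) = X.ρ ga v
  rw [add_comm (X.ρ ga v), ← add_assoc, two_zero, zero_add]

theorem nm_b (X : Rep.{0} k G4) (v : X.V) : (nm X).b v = X.ρ gb v := by
  rw [NM.b_apply]
  change v + (X.ρ gb v + v) = X.ρ gb v
  rw [add_comm (X.ρ gb v), ← add_assoc, two_zero, zero_add]

/-- Powers of an involution. -/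
def pw {V : Type} [AddCommGroup V] [Module k V] (f : V →ₗ[k] V) (i : Multiplicative (ZMod 2)) :
    V →ₗ[k] V := if i = 1 then LinearMap.id else f

theorem pw_mul {V : Type} [AddCommGroup V] [Module k V] (f : V →ₗ[k] V) (hf : ∀ v, f (f v) = v)
    (i j : Multiplicative (ZMod 2)) (v : V) : pw f (i * j) v = pw f i (pw f j v) := by
  have hc : ∀ i : Multiplicative (ZMod 2), i = 1 ∨ i = Multiplicative.ofAdd 1 := by decide
  have hn : (Multiplicative.ofAdd 1 : Multiplicative (ZMod 2)) ≠ 1 := by decide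
  have hs : (Multiplicative.ofAdd 1 * Multiplicative.ofAdd 1 : Multiplicative (ZMod 2)) = 1 := by
    decide
  unfold pw
  rcases hc i with rfl | rfl <;> rcases hc j with rfl | rfl
  · rw [mul_one, if_pos rfl]; rfl
  · rw [one_mul, if_neg hn, if_pos rfl]; rfl
  · rw [mul_one, if_neg hn, if_pos rfl]; rfl
  · rw [hs, if_neg hn, if_pos rfl, hf]; rfl

theorem pw_comm {V : Type} [AddCommGroup V] [Module k V] (f g : V →ₗ[k] V)
    (h : ∀ v, f (g v) = g (f v)) (i j : Multiplicative (ZMod 2)) (v : V) :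
    pw f i (pw g j v) = pw g j (pw f i v) := by
  unfold pw
  split_ifs
  · rfl
  · rfl
  · rfl
  · exact h v

section RepOf

variable {V : Type} [AddCommGroup V] [Module k V] (m : NM V)

/-- The representation on `V`. -/
def rh : Representation k G4 V where
  toFun g := pw m.a g.1 ∘ₗ pw m.b g.2
  map_one' := by
    apply LinearMap.ext
    intro v
    rfl
  map_mul' g h := by
    apply LinearMap.ext
    intro v
    change pw m.a (g.1 * h.1) (pw m.b (g.2 * h.2) v) =
      pw m.a g.1 (pw m.b g.2 (pw m.a h.1 (pw m.b h.2 v)))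
    rw [pw_mul _ m.aa, pw_mul _ m.bb, pw_comm m.a m.b m.ab h.1 g.2]

/-- The representation attached to two endomorphisms. -/
abbrev rp : Rep.{0} k G4 := Rep.of (rh m)

theorem rp_a (v : V) : rh m ga v = m.a v := rfl

theorem rp_b (v : V) : rh m gb v = m.b v := rfl

theorem nm_rp : nm (rp m) = m := by
  have h1 : (nm (rp m)).x = m.x := by
    apply LinearMap.ext
    intro v
    change rh m ga v + v = m.x v
    rw [rp_a, m.x_eq]
  have h2 : (nm (rp m)).y = m.y := by
    apply LinearMap.ext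
    intro v
    change rh m gb v + v = m.y v
    rw [rp_b, m.y_eq]
  cases m
  simp only [nm] at h1 h2 ⊢
  congr

end RepOf

section Hom

variable {X Y : Rep.{0} k G4}

/-- The linear map under a morphism. -/
abbrev lm (f : X ⟶ Y) : X.V →ₗ[k] Y.V := f.hom.toLinearMap

theorem lm_eqv (f : X ⟶ Y) : (nm X).Eqv (nm Y) (lm f) := by
  constructor
  · intro v
    change lm f (X.ρ ga v + v) = Y.ρ ga (lm f v) + lm f v
    rw [map_add]
    congr 1
    exact Rep.hom_comm_apply f ga v
  · intro v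
    change lm f (X.ρ gb v + v) = Y.ρ gb (lm f v) + lm f v
    rw [map_add]
    congr 1
    exact Rep.hom_comm_apply f gb v

theorem eqv_rho (f : X.V →ₗ[k] Y.V) (hf : (nm X).Eqv (nm Y) f) (g : G4) (v : X.V) :
    f (X.ρ g v) = Y.ρ g (f v) := by
  have h1 : ∀ v, f (X.ρ ga v) = Y.ρ ga (f v) := by
    intro v
    rw [← nm_a, ← nm_a, NM.a_apply, NM.a_apply, map_add, hf.1]
  have h2 : ∀ v, f (X.ρ gb v) = Y.ρ gb (f v) := by
    intro v
    rw [← nm_b, ← nm_b, NM.b_apply, NM.b_apply, map_add, hf.2]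
  rcases G4_cases g with rfl | rfl | rfl | rfl
  · rw [map_one, map_one]; rfl
  · exact h1 v
  · exact h2 v
  · rw [map_mul, map_mul, Module.End.mul_apply, Module.End.mul_apply, h1, h2]

/-- The morphism under an equivariant linear map. -/
def mkHom (f : X.V →ₗ[k] Y.V) (hf : (nm X).Eqv (nm Y) f) : X ⟶ Y :=
  Rep.ofHom (ρ := X.ρ) (σ := Y.ρ) (LinearMap.intertwiningMap_of_isIntertwiningMap X.ρ Y.ρ f
    (fun g v => eqv_rho f hf g v))

theorem lm_mkHom (f : X.V →ₗ[k] Y.V) (hf : (nm X).Eqv (nm Y) f) : lm (mkHom f hf) = f := rfl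

theorem hom_ext' (f g : X ⟶ Y) (h : lm f = lm g) : f = g := by
  apply Rep.hom_ext
  exact Representation.IntertwiningMap.ext h

end Hom

/-- The bundled module of a representation. -/
def bm (X : Rep.{0} k G4) (h : FiniteDimensional k X.V) : BM :=
  @BM.mk X.V _ _ h (nm X)

theorem tensor_iso (X Y : Rep.{0} k G4) (hX : FiniteDimensional k X.V)
    (hY : FiniteDimensional k Y.V) (hXY : FiniteDimensional k (X ⊗ Y).V) :
    (bm (X ⊗ Y) hXY).Iso ((bm X hX).tens (bm Y hY)) := by
  refine ⟨LinearEquiv.refl k _, NM.eqv_of _ _ ?_ ?_⟩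
  · intro t
    change (nm (X ⊗ Y)).a t = ((nm X).tens (nm Y)).a t
    rw [NM.tens_a, nm_a]
    have h1 : (nm X).a = X.ρ ga := LinearMap.ext (nm_a X)
    have h2 : (nm Y).a = Y.ρ ga := LinearMap.ext (nm_a Y)
    rw [h1, h2]
    rfl
  · intro t
    change (nm (X ⊗ Y)).b t = ((nm X).tens (nm Y)).b t
    rw [NM.tens_b, nm_b]
    have h1 : (nm X).b = X.ρ gb := LinearMap.ext (nm_b X)
    have h2 : (nm Y).b = Y.ρ gb := LinearMap.ext (nm_b Y)
    rw [h1, h2]
    rfl

section Split

variable {X N P : Rep.{0} k G4} (i₁ : N ⟶ X) (p₁ : X ⟶ N) (i₂ : P ⟶ X) (p₂ : X ⟶ P)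

/-- The linear equivalence of a splitting. -/
def splitEquiv (h1 : i₁ ≫ p₁ = 𝟙 N) (h2 : i₂ ≫ p₂ = 𝟙 P) (h3 : i₁ ≫ p₂ = 0)
    (h4 : i₂ ≫ p₁ = 0) (h5 : p₁ ≫ i₁ + p₂ ≫ i₂ = 𝟙 X) : X.V ≃ₗ[k] N.V × P.V where
  toFun v := (lm p₁ v, lm p₂ v)
  map_add' v w := by rw [map_add, map_add]; rfl
  map_smul' c v := by rw [map_smul, map_smul]; rfl
  invFun w := lm i₁ w.1 + lm i₂ w.2
  left_inv v := by
    have h := LinearMap.congr_fun (congrArg lm h5) v
    exact h
  right_inv w := by
    have e1 : lm p₁ (lm i₁ w.1) = w.1 := LinearMap.congr_fun (congrArg lm h1) w.1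
    have e2 : lm p₂ (lm i₂ w.2) = w.2 := LinearMap.congr_fun (congrArg lm h2) w.2
    have e3 : lm p₂ (lm i₁ w.1) = 0 := LinearMap.congr_fun (congrArg lm h3) w.1
    have e4 : lm p₁ (lm i₂ w.2) = 0 := LinearMap.congr_fun (congrArg lm h4) w.2
    change (lm p₁ (lm i₁ w.1 + lm i₂ w.2), lm p₂ (lm i₁ w.1 + lm i₂ w.2)) = w
    rw [map_add, map_add, e1, e2, e3, e4, add_zero, zero_add]

theorem split_fd (hX : FiniteDimensional k X.V) (h1 : i₁ ≫ p₁ = 𝟙 N) : FiniteDimensional k N.V := by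
  apply Module.Finite.of_surjective (lm p₁)
  intro v
  exact ⟨lm i₁ v, LinearMap.congr_fun (congrArg lm h1) v⟩

theorem gam_split (hX : FiniteDimensional k X.V) (hN : FiniteDimensional k N.V)
    (hP : FiniteDimensional k P.V)
    (h1 : i₁ ≫ p₁ = 𝟙 N) (h2 : i₂ ≫ p₂ = 𝟙 P) (h3 : i₁ ≫ p₂ = 0)
    (h4 : i₂ ≫ p₁ = 0) (h5 : p₁ ≫ i₁ + p₂ ≫ i₂ = 𝟙 X) :
    (nm X).gam = (nm N).gam + (nm P).gam := by
  rw [← NM.gam_prod]
  apply NM.gam_iso _ _ (splitEquiv i₁ p₁ i₂ p₂ h1 h2 h3 h4 h5)
  constructor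
  · intro v
    exact Prod.ext ((lm_eqv p₁).1 v) ((lm_eqv p₂).1 v)
  · intro v
    exact Prod.ext ((lm_eqv p₁).2 v) ((lm_eqv p₂).2 v)

end Split

section Free

variable (H : Type) [AddCommGroup H] [Module k H]

/-- The free representation on `H`. -/
abbrev frr : Rep.{0} k G4 := rp (NM.fr H)

/-- The map from the free representation given by a linear map. -/
def extHom {H : Type} [AddCommGroup H] [Module k H] {X : Rep.{0} k G4} (l : H →ₗ[k] X.V) :
    frr H ⟶ X :=
  mkHom ((nm X).ext l) (by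
    rw [nm_rp]
    exact (nm X).ext_eqv l)

theorem lm_extHom {H : Type} [AddCommGroup H] [Module k H] {X : Rep.{0} k G4} (l : H →ₗ[k] X.V) :
    lm (extHom l) = (nm X).ext l := rfl

theorem fr_hom_ext {H : Type} [AddCommGroup H] [Module k H] {X : Rep.{0} k G4}
    (f : (H × H × H × H) →ₗ[k] X.V) (hf : (NM.fr H).Eqv (nm X) f) :
    f = (nm X).ext (f ∘ₗ LinearMap.inl k H (H × H × H)) := by
  apply LinearMap.ext
  rintro ⟨a, b, c, d⟩
  change f (a, b, c, d) = f (a, 0) + (nm X).x (f (b, 0)) + (nm X).y (f (c, 0)) +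
    (nm X).x ((nm X).y (f (d, 0)))
  rw [← hf.1, ← hf.2, ← hf.2, ← hf.1, ← map_add, ← map_add, ← map_add]
  congr 1
  change (a, b, c, d) = ((a, 0, 0, 0) + (0, b, 0, 0) + (0, 0, c, 0) + (0, 0, 0, d) :
    H × H × H × H)
  simp

theorem frr_projective : Projective (frr H) := by
  refine ⟨fun {E X} f e he => ?_⟩
  have hs : Function.Surjective (lm e) := (Rep.epi_iff_surjective e).mp he
  obtain ⟨s, hs⟩ := (lm e).exists_rightInverse_of_surjective (LinearMap.range_eq_top.mpr hs)
  let l : H →ₗ[k] E.V := s ∘ₗ (lm f) ∘ₗ LinearMap.inl k H (H × H × H)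
  refine ⟨extHom l, ?_⟩
  apply hom_ext'
  have hf : (NM.fr H).Eqv (nm X) (lm f) := by
    have := lm_eqv f
    rw [nm_rp] at this
    exact this
  have hg : (NM.fr H).Eqv (nm X) (lm (extHom l ≫ e)) := by
    have := lm_eqv (extHom l ≫ e)
    rw [nm_rp] at this
    exact this
  rw [fr_hom_ext (lm f) hf]
  refine (fr_hom_ext (lm (extHom l ≫ e)) hg).trans ?_
  congr 1
  apply LinearMap.ext
  intro h
  change lm e ((nm E).ext l (h, 0, 0, 0)) = lm f (h, 0)
  have e1 : (nm E).ext l (h, 0, 0, 0) = l h := by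
    change l h + (nm E).x (l 0) + (nm E).y (l 0) + (nm E).x ((nm E).y (l 0)) = l h
    simp only [map_zero, add_zero]
  rw [e1]
  exact LinearMap.congr_fun hs (lm f (h, 0))

theorem gam_fr [FiniteDimensional k H] : (NM.fr H).gam = 0 := by
  apply le_antisymm _ (NM.gam_nonneg _)
  have hinj : Function.Injective ((NM.fr H).nu.rangeRestrict ∘ₗ LinearMap.inl k H (H × H × H)) := by
    intro t u htu
    have h1 : (NM.fr H).nu (t, 0, 0, 0) = (NM.fr H).nu (u, 0, 0, 0) := congrArg Subtype.val htu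
    exact congrArg (fun v => v.2.2.2) h1
  have h := LinearMap.finrank_le_finrank_of_injective hinj
  unfold NM.gam
  rw [finrank_prod, finrank_prod, finrank_prod]
  change finrank k H ≤ (NM.fr H).rk at h
  push_cast
  have h' : ((finrank k H : ℕ) : ℤ) ≤ ((NM.fr H).rk : ℤ) := by exact_mod_cast h
  linarith

end Free

theorem gam_projective (P : Rep.{0} k G4) (hP : FiniteDimensional k P.V) (h : Projective P) :
    (nm P).gam = 0 := by
  let π : frr P.V ⟶ P := extHom LinearMap.id
  have hπ : Epi π := by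
    rw [Rep.epi_iff_surjective]
    intro v
    refine ⟨(v, 0, 0, 0), ?_⟩
    change v + (nm P).x 0 + (nm P).y 0 + (nm P).x ((nm P).y 0) = v
    simp only [map_zero, add_zero]
  let s : P ⟶ frr P.V := Projective.factorThru (𝟙 P) π
  have hs : s ≫ π = 𝟙 P := Projective.factorThru_comp _ _
  let r : frr P.V ⟶ kernel π := kernel.lift π (𝟙 _ - π ≫ s) (by
    rw [Preadditive.sub_comp, Category.id_comp, Category.assoc, hs, Category.comp_id, sub_self])
  have hr : r ≫ kernel.ι π = 𝟙 _ - π ≫ s := kernel.lift_ι _ _ _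
  have h1 : kernel.ι π ≫ r = 𝟙 _ := by
    rw [← cancel_mono (kernel.ι π), Category.assoc, hr, Preadditive.comp_sub, Category.comp_id,
      ← Category.assoc, kernel.condition, zero_comp, sub_zero, Category.id_comp]
  have h4 : s ≫ r = 0 := by
    rw [← cancel_mono (kernel.ι π), Category.assoc, hr, Preadditive.comp_sub, Category.comp_id,
      ← Category.assoc, hs, Category.id_comp, sub_self, zero_comp]
  have h5 : r ≫ kernel.ι π + π ≫ s = 𝟙 _ := by
    rw [hr, sub_add_cancel]
  have hF : FiniteDimensional k (frr P.V).V := by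
    change FiniteDimensional k (P.V × P.V × P.V × P.V)
    infer_instance
  have hK : FiniteDimensional k (kernel π : Rep.{0} k G4).V := split_fd (kernel.ι π) r hF h1
  have h6 := gam_split (kernel.ι π) r s π hF hK hP h1 hs (kernel.condition π) h4 h5
  rw [nm_rp, gam_fr] at h6
  have h7 := (nm (kernel π)).gam_nonneg
  have h8 := (nm P).gam_nonneg
  omega

theorem exists_core (X : Rep.{0} k G4) (hX : FiniteDimensional k X.V) :
    ∃ N P : Rep.{0} k G4, Projective P ∧ Nonempty (X ≅ N ⊞ P) ∧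
      (finrank k N.V : ℤ) = (nm X).gam := by
  let m := nm X
  obtain ⟨s, hs⟩ := m.exists_sec
  have hinj := m.ext_injective s (fun v hv => Subtype.ext ((hs v).symm.trans hv))
  let R : Type := LinearMap.range m.nu
  let Φ : frr R ⟶ X := extHom s
  obtain ⟨ψ, hψ⟩ := (m.ext s).exists_leftInverse_of_injective (LinearMap.ker_eq_bot.mpr hinj)
  let φ : X.V →ₗ[k] R := NM.p4 R ∘ₗ ψ
  have hφ : ∀ w : R × R × R × R, φ (m.ext s w) = w.2.2.2 := by
    intro w
    have := LinearMap.congr_fun hψ w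
    change NM.p4 R (ψ (m.ext s w)) = _
    have e : ψ (m.ext s w) = w := this
    rw [e]
    rfl
  let r₀ : X.V →ₗ[k] (R × R × R × R) :=
    { toFun := fun v => (φ (m.x (m.y v)), φ (m.y v), φ (m.x v), φ v)
      map_add' := fun v w => by simp only [map_add]; rfl
      map_smul' := fun c v => by simp only [map_smul]; rfl }
  have hr₀ : m.Eqv (NM.fr R) r₀ := by
    constructor
    · intro v
      change (φ (m.x (m.y (m.x v))), φ (m.y (m.x v)), φ (m.x (m.x v)), φ (m.x v)) =
        ((0, φ (m.x (m.y v)), 0, φ (m.x v)) : R × R × R × R)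
      rw [← m.xy v, m.xx, m.xx, map_zero]
    · intro v
      change (φ (m.x (m.y (m.y v))), φ (m.y (m.y v)), φ (m.x (m.y v)), φ (m.y v)) =
        ((0, 0, φ (m.x (m.y v)), φ (m.y v)) : R × R × R × R)
      rw [m.yy, map_zero, map_zero]
  let r : X ⟶ frr R := mkHom r₀ (by rw [nm_rp]; exact hr₀)
  have hΦr : Φ ≫ r = 𝟙 _ := by
    apply hom_ext'
    apply LinearMap.ext
    intro w
    change r₀ (m.ext s w) = w
    have e1 : m.x (m.ext s w) = m.ext s ((NM.fr R).x w) := ((m.ext_eqv s).1 w).symm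
    have e2 : m.y (m.ext s w) = m.ext s ((NM.fr R).y w) := ((m.ext_eqv s).2 w).symm
    have e3 : m.x (m.ext s ((NM.fr R).y w)) = m.ext s ((NM.fr R).x ((NM.fr R).y w)) :=
      ((m.ext_eqv s).1 _).symm
    change (φ (m.x (m.y (m.ext s w))), φ (m.y (m.ext s w)), φ (m.x (m.ext s w)), φ (m.ext s w)) = w
    rw [e1, e2, e3, hφ, hφ, hφ, hφ]
    rfl
  let q : X ⟶ kernel r := kernel.lift r (𝟙 _ - r ≫ Φ) (by
    rw [Preadditive.sub_comp, Category.id_comp, Category.assoc, hΦr, Category.comp_id, sub_self])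
  have hq : q ≫ kernel.ι r = 𝟙 _ - r ≫ Φ := kernel.lift_ι _ _ _
  have h1 : kernel.ι r ≫ q = 𝟙 _ := by
    rw [← cancel_mono (kernel.ι r), Category.assoc, hq, Preadditive.comp_sub, Category.comp_id,
      ← Category.assoc, kernel.condition, zero_comp, sub_zero, Category.id_comp]
  have h4 : Φ ≫ q = 0 := by
    rw [← cancel_mono (kernel.ι r), Category.assoc, hq, Preadditive.comp_sub, Category.comp_id,
      ← Category.assoc, hΦr, Category.id_comp, sub_self, zero_comp]
  have h5 : q ≫ kernel.ι r + r ≫ Φ = 𝟙 _ := by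
    rw [hq, sub_add_cancel]
  refine ⟨kernel r, frr R, frr_projective R, ⟨⟨biprod.lift q r, biprod.desc (kernel.ι r) Φ, ?_, ?_⟩⟩,
    ?_⟩
  · rw [biprod.lift_desc, h5]
  · apply biprod.hom_ext'
    · apply biprod.hom_ext
      · simp [h1]
      · simp
    · apply biprod.hom_ext
      · simp [h4]
      · simp [hΦr]
  · have e := (splitEquiv (kernel.ι r) q Φ r h1 hΦr (kernel.condition r) h4 h5).finrank_eq
    have hK : FiniteDimensional k (kernel r : Rep.{0} k G4).V := split_fd (kernel.ι r) q hX h1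
    have e2 : finrank k ((kernel r : Rep.{0} k G4).V × (frr R).V) =
        finrank k (kernel r : Rep.{0} k G4).V + finrank k (R × R × R × R) :=
      finrank_prod
    rw [e2, finrank_prod, finrank_prod, finrank_prod] at e
    have e3 : finrank k R = m.rk := rfl
    rw [e3] at e
    change _ = (finrank k X.V : ℤ) - 4 * (m.rk : ℤ)
    rw [e]
    push_cast
    ring

theorem gam_le (X : Rep.{0} k G4) (hX : FiniteDimensional k X.V) (N P : Rep.{0} k G4)
    (hP : Projective P) (h : Nonempty (X ≅ N ⊞ P)) : (nm X).gam ≤ (finrank k N.V : ℤ) := by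
  obtain ⟨e⟩ := h
  let i₁ : N ⟶ X := biprod.inl ≫ e.inv
  let p₁ : X ⟶ N := e.hom ≫ biprod.fst
  let i₂ : P ⟶ X := biprod.inr ≫ e.inv
  let p₂ : X ⟶ P := e.hom ≫ biprod.snd
  have h1 : i₁ ≫ p₁ = 𝟙 N := by simp [i₁, p₁]
  have h2 : i₂ ≫ p₂ = 𝟙 P := by simp [i₂, p₂]
  have h3 : i₁ ≫ p₂ = 0 := by simp [i₁, p₂]
  have h4 : i₂ ≫ p₁ = 0 := by simp [i₂, p₁]
  have h5 : p₁ ≫ i₁ + p₂ ≫ i₂ = 𝟙 X := by
    have : p₁ ≫ i₁ + p₂ ≫ i₂ = e.hom ≫ (biprod.fst ≫ biprod.inl + biprod.snd ≫ biprod.inr) ≫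
        e.inv := by
      simp only [i₁, p₁, i₂, p₂, Category.assoc, Preadditive.comp_add, Preadditive.add_comp]
    rw [this, biprod.total, Category.id_comp, e.hom_inv_id]
  have hN : FiniteDimensional k N.V := split_fd i₁ p₁ hX h1
  have hP' : FiniteDimensional k P.V := split_fd i₂ p₂ hX h2
  have h6 := gam_split i₁ p₁ i₂ p₂ hX hN hP' h1 h2 h3 h4 h5
  rw [gam_projective P hP' hP, add_zero] at h6
  rw [h6]
  unfold NM.gam
  have : (0 : ℤ) ≤ ((nm N).rk : ℤ) := Int.natCast_nonneg _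
  omega

/-- The dimensions of the complements of projective summands. -/
def coreSet (X : Rep.{0} k G4) : Set ℕ :=
  {d : ℕ | ∃ N P' : Rep.{0} k G4, Projective P' ∧ Nonempty (X ≅ N ⊞ P') ∧
      finrank k N.V = d}

theorem sInf_eq (X : Rep.{0} k G4) (hX : FiniteDimensional k X.V) :
    ((sInf (coreSet X) : ℕ) : ℤ) = (nm X).gam := by
  obtain ⟨N₀, P₀, hP₀, h₀, hN₀⟩ := exists_core X hX
  have hmem : finrank k N₀.V ∈ coreSet X := ⟨N₀, P₀, hP₀, h₀, rfl⟩
  apply le_antisymm
  · rw [← hN₀]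
    exact_mod_cast Nat.sInf_le hmem
  · obtain ⟨N, P, hP, h, hN⟩ := Nat.sInf_mem (Set.nonempty_of_mem hmem)
    rw [← hN]
    exact gam_le X hX N P hP h

/-- The module of the counterexample. -/
noncomputable def MM : Rep.{0} k G4 := rp BMM.m

theorem MM_fd : FiniteDimensional k MM.V := BMM.i3

/-- The tensor powers. -/
noncomputable def TT (n : ℕ) : Rep.{0} k G4 :=
  (fun X : Rep.{0} k G4 => X ⊗ MM)^[n] (𝟙_ (Rep.{0} k G4))

theorem TT_succ (n : ℕ) : TT (n + 1) = TT n ⊗ MM := Function.iterate_succ_apply' _ _ _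

theorem TT_fd (n : ℕ) : FiniteDimensional k (TT n).V := by
  induction n with
  | zero =>
    change FiniteDimensional k k
    infer_instance
  | succ n ih =>
    rw [TT_succ]
    have := MM_fd
    change FiniteDimensional k ((TT n).V ⊗[k] MM.V)
    infer_instance

theorem bm_congr {X Y : Rep.{0} k G4} (h : X = Y) (hX : FiniteDimensional k X.V)
    (hY : FiniteDimensional k Y.V) : (bm X hX).Iso (bm Y hY) := by
  subst h
  exact BM.Iso.refl _

theorem bm_MM (h : FiniteDimensional k MM.V) : (bm MM h).Iso BMM := by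
  have e : nm MM = BMM.m := nm_rp BMM.m
  refine ⟨LinearEquiv.refl k _, ?_⟩
  change (nm MM).Eqv BMM.m LinearMap.id
  rw [e]
  exact ⟨fun _ => rfl, fun _ => rfl⟩

theorem bm_succ (n : ℕ) : (bm (TT (n + 1)) (TT_fd (n + 1))).Iso ((bm (TT n) (TT_fd n)).tens BMM) := by
  have h : FiniteDimensional k (TT n ⊗ MM).V := by
    rw [← TT_succ]
    exact TT_fd _
  exact (bm_congr (TT_succ n) (TT_fd (n + 1)) h).trans
    ((tensor_iso (TT n) MM (TT_fd n) MM_fd h).trans ((BM.Iso.refl _).tens (bm_MM _)))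

theorem bm_zero : (bm (TT 0) (TT_fd 0)).Iso (BW 0) := by
  let f : k ≃ₗ[k] ((Fin 1 → k) × (Fin 0 → k)) :=
    { invFun := fun v => v.1 0
      map_add' := fun _ _ => rfl
      map_smul' := fun _ _ => rfl
      toFun := fun c => (fun _ => c, 0)
      right_inv := fun v => by
        apply Prod.ext
        · funext i
          obtain rfl : i = 0 := Subsingleton.elim _ _
          rfl
        · exact Subsingleton.elim _ _
      left_inv := fun _ => rfl }
  refine ⟨f, fun v => ?_, fun v => ?_⟩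
  · change f ((v + v : k)) = (U 0).x (f v)
    have e : (v + v : k) = 0 := two_zero (V := k) v
    rw [e]
    refine (map_zero f).trans ?_
    apply Prod.ext
    · rfl
    · exact Subsingleton.elim _ _
  · change f ((v + v : k)) = (U 0).y (f v)
    have e : (v + v : k) = 0 := two_zero (V := k) v
    rw [e]
    refine (map_zero f).trans ?_
    apply Prod.ext
    · rfl
    · exact Subsingleton.elim _ _

/-- The dimensions of the cores of the tensor products with the syzygies. -/
noncomputable def gg (n : ℕ) (i : ℤ) : ℤ := G (bm (TT n) (TT_fd n)) i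

theorem gg_zero (i : ℤ) : gg 0 i = 2 * |i| + 1 := by
  unfold gg
  rw [G_iso bm_zero]
  unfold G
  rw [(BM.iso_comm (BW 0) (BW i)).gam, (iso_tens_zero (BW i)).gam, gam_W]

theorem gg_succ (n : ℕ) (i : ℤ) : gg (n + 1) i = 2 * gg n i + gg n (i + 1) + gg n (i - 1) := by
  unfold gg
  rw [G_iso (bm_succ n), G_step]

theorem core_TT (n : ℕ) : ((sInf (coreSet (TT n)) : ℕ) : ℤ) = gg n 0 := by
  rw [sInf_eq (TT n) (TT_fd n)]
  unfold gg
  rw [G_zero']
  rfl

end Pool.Agent.R793.BS
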