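import Mathlib

/-!
The recursion for the dimensions of the cores, and its generating function.
-/

set_option autoImplicit false

namespace Pool.Agent.R793.BS

/-- The second differences. -/
def bb : ℕ → ℤ → ℤ
  | 0, i => if i = 0 then 1 else 0
  | n + 1, i => 2 * bb n i + bb n (i + 1) + bb n (i - 1)

theorem bb_eq (n : ℕ) : (∀ j : ℕ, bb n ((j : ℤ) - n) = ((2 * n).choose j : ℕ)) ∧
    (∀ j : ℕ, bb n (-(n : ℤ) - 1 - j) = 0) := by
  induction n with
  | zero =>
    constructor
    · intro j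
      cases j with
      | zero => simp [bb]
      | succ j =>
        have h : ((j + 1 : ℕ) : ℤ) - ((0 : ℕ) : ℤ) ≠ 0 := by push_cast; omega
        simp only [bb, if_neg h]
        simp
    · intro j
      have h : -((0 : ℕ) : ℤ) - 1 - (j : ℤ) ≠ 0 := by push_cast; omega
      simp only [bb, if_neg h]
  | succ n ih =>
    obtain ⟨ih1, ih2⟩ := ih
    constructor
    · intro j
      cases j with
      | zero =>
        have e1 : ((0 : ℕ) : ℤ) - ((n + 1 : ℕ) : ℤ) = -(n : ℤ) - 1 - ((0 : ℕ) : ℤ) := by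
          push_cast; ring
        have e2 : ((0 : ℕ) : ℤ) - ((n + 1 : ℕ) : ℤ) + 1 = ((0 : ℕ) : ℤ) - n := by
          push_cast; ring
        have e3 : ((0 : ℕ) : ℤ) - ((n + 1 : ℕ) : ℤ) - 1 = -(n : ℤ) - 1 - ((1 : ℕ) : ℤ) := by
          push_cast; ring
        simp only [bb]
        rw [e2, e3, ih1, ih2, e1, ih2]
        simp
      | succ j =>
        cases j with
        | zero =>
          have e1 : ((0 + 1 : ℕ) : ℤ) - ((n + 1 : ℕ) : ℤ) = ((0 : ℕ) : ℤ) - n := by
            push_cast; ring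
          have e2 : ((0 + 1 : ℕ) : ℤ) - ((n + 1 : ℕ) : ℤ) + 1 = ((1 : ℕ) : ℤ) - n := by
            push_cast; ring
          have e3 : ((0 + 1 : ℕ) : ℤ) - ((n + 1 : ℕ) : ℤ) - 1 = -(n : ℤ) - 1 - ((0 : ℕ) : ℤ) := by
            push_cast; ring
          simp only [bb]
          rw [e2, e3, ih1, ih2, e1, ih1]
          simp only [Nat.choose_zero_right, Nat.choose_one_right, zero_add]
          push_cast
          ring
        | succ j =>
          have e1 : ((j + 1 + 1 : ℕ) : ℤ) - ((n + 1 : ℕ) : ℤ) = ((j + 1 : ℕ) : ℤ) - n := by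
            push_cast; ring
          have e2 : ((j + 1 + 1 : ℕ) : ℤ) - ((n + 1 : ℕ) : ℤ) + 1 = ((j + 2 : ℕ) : ℤ) - n := by
            push_cast; ring
          have e3 : ((j + 1 + 1 : ℕ) : ℤ) - ((n + 1 : ℕ) : ℤ) - 1 = (j : ℤ) - n := by
            push_cast; ring
          simp only [bb]
          rw [e2, e3, ih1, ih1, e1, ih1]
          have e4 : 2 * (n + 1) = 2 * n + 1 + 1 := by ring
          rw [e4, Nat.choose_succ_succ, Nat.choose_succ_succ, Nat.choose_succ_succ]
          push_cast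
          ring
    · intro j
      have e1 : -((n + 1 : ℕ) : ℤ) - 1 - (j : ℤ) = -(n : ℤ) - 1 - ((j + 1 : ℕ) : ℤ) := by
        push_cast; ring
      have e2 : -((n + 1 : ℕ) : ℤ) - 1 - (j : ℤ) + 1 = -(n : ℤ) - 1 - (j : ℤ) := by
        push_cast; ring
      have e3 : -((n + 1 : ℕ) : ℤ) - 1 - (j : ℤ) - 1 = -(n : ℤ) - 1 - ((j + 2 : ℕ) : ℤ) := by
        push_cast; ring
      simp only [bb]
      rw [e2, e3, ih2, ih2, e1, ih2]
      ring

theorem bb_zero (n : ℕ) : bb n 0 = (n.centralBinom : ℤ) := by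
  have h := (bb_eq n).1 n
  rw [sub_self] at h
  exact h

theorem seq_rec (g : ℕ → ℤ → ℤ) (h0 : ∀ i, g 0 i = 2 * |i| + 1)
    (h1 : ∀ n i, g (n + 1) i = 2 * g n i + g n (i + 1) + g n (i - 1)) (n : ℕ) :
    g (n + 1) 0 = 4 * g n 0 + 4 * (n.centralBinom : ℤ) := by
  have key : ∀ n i, g n (i + 1) + g n (i - 1) - 2 * g n i = 4 * bb n i := by
    intro n
    induction n with
    | zero =>
      intro i
      rw [h0, h0, h0]
      simp only [bb]
      rcases lt_trichotomy i 0 with h | h | h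
      · rw [if_neg h.ne, abs_of_neg h, abs_of_neg (by omega : i - 1 < 0),
          abs_of_nonpos (by omega : i + 1 ≤ 0)]
        ring
      · subst h
        norm_num
      · rw [if_neg h.ne', abs_of_pos h, abs_of_nonneg (by omega : 0 ≤ i - 1),
          abs_of_pos (by omega : 0 < i + 1)]
        ring
    | succ n ih =>
      intro i
      have e1 := ih i
      have e2 := ih (i + 1)
      have e3 := ih (i - 1)
      rw [h1 n (i + 1), h1 n (i - 1), h1 n i]
      have e4 : bb (n + 1) i = 2 * bb n i + bb n (i + 1) + bb n (i - 1) := rfl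
      rw [e4]
      linear_combination 2 * e1 + e2 + e3
  have h2 := key n 0
  rw [bb_zero] at h2
  rw [h1]
  linear_combination h2

section Series

open PowerSeries

/-- The generating function of the central binomial coefficients. -/
noncomputable def CB : ℚ⟦X⟧ := PowerSeries.mk fun n => (n.centralBinom : ℚ)

theorem four_ne : (4 : ℚ⟦X⟧) ≠ 0 := by
  intro h
  have h1 := congrArg constantCoeff h
  rw [map_zero] at h1
  have h2 : constantCoeff (4 : ℚ⟦X⟧) = (4 : ℚ) := constantCoeff_C (4 : ℚ)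
  rw [h2] at h1
  norm_num at h1

theorem four_coe : ((4 : Polynomial ℚ) : ℚ⟦X⟧) = 4 := Polynomial.coe_C 4

theorem CB_sq : (1 - 4 * X) * CB ^ 2 = 1 := by
  let K : ℚ⟦X⟧ := PowerSeries.map (Nat.castRingHom ℚ) catalanSeries
  have hK : K ^ 2 * X + 1 = K := by
    have h := congrArg (PowerSeries.map (Nat.castRingHom ℚ)) catalanSeries_sq_mul_X_add_one
    rw [map_add, map_mul, map_pow, map_one, PowerSeries.map_X] at h
    exact h
  have hC : derivative ℚ (X * K) = CB := by
    ext n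
    rw [coeff_derivative, coeff_succ_X_mul]
    change (Nat.castRingHom ℚ) (coeff n catalanSeries) * ((n : ℚ) + 1) = coeff n CB
    rw [catalanSeries_coeff, CB, coeff_mk, ← succ_mul_catalan_eq_centralBinom]
    push_cast
    ring
  have h1 : (1 - 2 * (X * K)) ^ 2 = 1 - 4 * X := by
    linear_combination (4 * X) * hK
  have h2 : (1 - 2 * (X * K)) * CB = 1 := by
    have h3 := congrArg (derivative ℚ) h1
    have e1 : derivative ℚ (4 * X : ℚ⟦X⟧) = 4 := by
      have : (4 * X : ℚ⟦X⟧) = C (4 : ℚ) * X := rfl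
      rw [this, Derivation.leibniz, derivative_C, derivative_X, smul_zero, add_zero, smul_eq_mul,
        mul_one]
      rfl
    have e2 : derivative ℚ (2 * (X * K) : ℚ⟦X⟧) = 2 * CB := by
      have : (2 * (X * K) : ℚ⟦X⟧) = C (2 : ℚ) * (X * K) := rfl
      rw [this, Derivation.leibniz, derivative_C, hC, smul_zero, add_zero, smul_eq_mul]
      rfl
    have e3 : derivative ℚ (1 : ℚ⟦X⟧) = 0 := derivative_one
    rw [derivative_pow, map_sub, map_sub, e1, e2, e3] at h3
    have h4 : (4 : ℚ⟦X⟧) * ((1 - 2 * (X * K)) * CB) = 4 * 1 := by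
      push_cast at h3
      linear_combination (-1) * h3
    exact mul_left_cancel₀ four_ne h4
  rw [← h1, ← mul_pow, h2, one_pow]

theorem not_rational (c : ℕ → ℤ) (h0 : c 0 = 1)
    (h1 : ∀ n, c (n + 1) = 4 * c n + 4 * (n.centralBinom : ℤ)) (P Q : Polynomial ℚ) (hQ : Q ≠ 0)
    (h : (Q : ℚ⟦X⟧) * PowerSeries.mk (fun n => (c n : ℚ)) = (P : ℚ⟦X⟧)) : False := by
  have hF : (1 - 4 * X) * PowerSeries.mk (fun n => (c n : ℚ)) = 1 + 4 * (X * CB) := by
    have e : (4 : ℚ⟦X⟧) = C (4 : ℚ) := rfl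
    ext n
    rw [sub_mul, one_mul, mul_assoc, e]
    cases n with
    | zero =>
      simp [h0]
    | succ n =>
      rw [map_sub, map_add, coeff_C_mul, coeff_C_mul, coeff_succ_X_mul, coeff_succ_X_mul, CB,
        coeff_mk, coeff_mk, coeff_mk, h1 n, coeff_one, if_neg n.succ_ne_zero]
      push_cast
      ring
  let R : Polynomial ℚ := (1 - 4 * Polynomial.X) * P - Q
  have hR : (R : ℚ⟦X⟧) = 4 * X * (Q : ℚ⟦X⟧) * CB := by
    have e : (R : ℚ⟦X⟧) = (1 - 4 * X) * (P : ℚ⟦X⟧) - (Q : ℚ⟦X⟧) := by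
      change (((1 - 4 * Polynomial.X) * P - Q : Polynomial ℚ) : ℚ⟦X⟧) = _
      rw [Polynomial.coe_sub, Polynomial.coe_mul, Polynomial.coe_sub, Polynomial.coe_mul,
        four_coe, Polynomial.coe_one, Polynomial.coe_X]
    rw [e, ← h]
    linear_combination (Q : ℚ⟦X⟧) * hF
  have h2 : ((4 * Polynomial.X * Q) ^ 2 : Polynomial ℚ) = (1 - 4 * Polynomial.X) * R ^ 2 := by
    apply Polynomial.coe_injective
    have e1 : (((4 * Polynomial.X * Q) ^ 2 : Polynomial ℚ) : ℚ⟦X⟧) = (4 * X * (Q : ℚ⟦X⟧)) ^ 2 := by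
      rw [Polynomial.coe_pow, Polynomial.coe_mul, Polynomial.coe_mul, four_coe, Polynomial.coe_X]
    have e2 : (((1 - 4 * Polynomial.X) * R ^ 2 : Polynomial ℚ) : ℚ⟦X⟧) =
        (1 - 4 * X) * (R : ℚ⟦X⟧) ^ 2 := by
      rw [Polynomial.coe_mul, Polynomial.coe_pow, Polynomial.coe_sub, Polynomial.coe_mul,
        four_coe, Polynomial.coe_one, Polynomial.coe_X]
    rw [e1, e2, hR]
    linear_combination (-(4 * X * (Q : ℚ⟦X⟧)) ^ 2) * CB_sq
  have e4 : (4 : Polynomial ℚ) = Polynomial.C 4 := rfl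
  have h3 : (4 * Polynomial.X * Q : Polynomial ℚ) ≠ 0 := by
    refine mul_ne_zero (mul_ne_zero ?_ Polynomial.X_ne_zero) hQ
    norm_num
  have hR0 : R ≠ 0 := by
    intro hR0
    rw [hR0] at h2
    apply h3
    have : (4 * Polynomial.X * Q : Polynomial ℚ) ^ 2 = 0 := by rw [h2]; ring
    exact pow_eq_zero_iff (two_ne_zero) |>.mp this
  have h5 := congrArg Polynomial.natDegree h2
  have h6 : (1 - 4 * Polynomial.X : Polynomial ℚ).natDegree = 1 := by
    have : (1 - 4 * Polynomial.X : Polynomial ℚ) = Polynomial.C (-4) * Polynomial.X + Polynomial.C 1 := by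
      rw [Polynomial.C_neg, ← e4, Polynomial.C_1]
      ring
    rw [this]
    exact Polynomial.natDegree_linear (by norm_num)
  have h7 : (1 - 4 * Polynomial.X : Polynomial ℚ) ≠ 0 := by
    intro h8
    rw [h8, Polynomial.natDegree_zero] at h6
    exact absurd h6 (by norm_num)
  rw [Polynomial.natDegree_pow, Polynomial.natDegree_mul h7 (pow_ne_zero 2 hR0),
    Polynomial.natDegree_pow, h6] at h5
  omega

end Series

end Pool.Agent.R793.BS
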