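import Pool.Agent.R793.BS.NM

/-!
Tensor products of modules over the group algebra of the four-group.
-/

set_option autoImplicit false

namespace Pool.Agent.R793.BS

open Module TensorProduct

namespace NM

section Tensor

variable {V W : Type} [AddCommGroup V] [Module k V] [AddCommGroup W] [Module k W]
  (m : NM V) (n : NM W)

/-- The action of the first generator. -/
def a : V →ₗ[k] V := LinearMap.id + m.x

/-- The action of the second generator. -/
def b : V →ₗ[k] V := LinearMap.id + m.y

theorem a_apply (v : V) : m.a v = v + m.x v := rfl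

theorem b_apply (v : V) : m.b v = v + m.y v := rfl

theorem aa (v : V) : m.a (m.a v) = v := by
  rw [a_apply, a_apply, map_add, m.xx, add_zero, add_assoc, two_zero, add_zero]

theorem bb (v : V) : m.b (m.b v) = v := by
  rw [b_apply, b_apply, map_add, m.yy, add_zero, add_assoc, two_zero, add_zero]

theorem ab (v : V) : m.a (m.b v) = m.b (m.a v) := by
  rw [a_apply, b_apply, b_apply, a_apply, map_add, map_add, m.xy]
  abel

theorem x_eq (v : V) : m.x v = m.a v + v := by
  rw [a_apply, add_comm, ← add_assoc, two_zero, zero_add]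

theorem y_eq (v : V) : m.y v = m.b v + v := by
  rw [b_apply, add_comm, ← add_assoc, two_zero, zero_add]

theorem map_aa (t : V ⊗[k] W) : TensorProduct.map m.a n.a (TensorProduct.map m.a n.a t) = t := by
  have h : (TensorProduct.map m.a n.a) ∘ₗ (TensorProduct.map m.a n.a) = LinearMap.id :=
    TensorProduct.ext' fun v w => by
      simp only [LinearMap.comp_apply, TensorProduct.map_tmul, aa, LinearMap.id_apply]
  exact LinearMap.congr_fun h t

theorem map_bb (t : V ⊗[k] W) : TensorProduct.map m.b n.b (TensorProduct.map m.b n.b t) = t := by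
  have h : (TensorProduct.map m.b n.b) ∘ₗ (TensorProduct.map m.b n.b) = LinearMap.id :=
    TensorProduct.ext' fun v w => by
      simp only [LinearMap.comp_apply, TensorProduct.map_tmul, bb, LinearMap.id_apply]
  exact LinearMap.congr_fun h t

theorem map_ab (t : V ⊗[k] W) : TensorProduct.map m.a n.a (TensorProduct.map m.b n.b t) =
    TensorProduct.map m.b n.b (TensorProduct.map m.a n.a t) := by
  have h : (TensorProduct.map m.a n.a) ∘ₗ (TensorProduct.map m.b n.b) =
      (TensorProduct.map m.b n.b) ∘ₗ (TensorProduct.map m.a n.a) :=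
    TensorProduct.ext' fun v w => by
      simp only [LinearMap.comp_apply, TensorProduct.map_tmul, ab]
  exact LinearMap.congr_fun h t

/-- The tensor product, with the diagonal action of the four-group. -/
noncomputable def tens : NM (V ⊗[k] W) where
  x := TensorProduct.map m.a n.a + LinearMap.id
  y := TensorProduct.map m.b n.b + LinearMap.id
  xx t := by
    rw [LinearMap.add_apply, LinearMap.add_apply, LinearMap.id_apply, LinearMap.id_apply, map_add,
      map_aa]
    rw [add_comm t, two_zero]
  yy t := by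
    rw [LinearMap.add_apply, LinearMap.add_apply, LinearMap.id_apply, LinearMap.id_apply, map_add,
      map_bb]
    rw [add_comm t, two_zero]
  xy t := by
    simp only [LinearMap.add_apply, LinearMap.id_apply, map_add, map_ab]
    abel

theorem tens_x (t : V ⊗[k] W) : (m.tens n).x t = TensorProduct.map m.a n.a t + t := rfl

theorem tens_y (t : V ⊗[k] W) : (m.tens n).y t = TensorProduct.map m.b n.b t + t := rfl

theorem tens_a (t : V ⊗[k] W) : (m.tens n).a t = TensorProduct.map m.a n.a t := by
  rw [a_apply, tens_x, add_comm, add_assoc, two_zero, add_zero]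

theorem tens_b (t : V ⊗[k] W) : (m.tens n).b t = TensorProduct.map m.b n.b t := by
  rw [b_apply, tens_y, add_comm, add_assoc, two_zero, add_zero]

end Tensor

section EqvA

variable {V W : Type} [AddCommGroup V] [Module k V] [AddCommGroup W] [Module k W]
  (m : NM V) (n : NM W)

/-- It is enough to commute with the group elements. -/
theorem eqv_of {f : V →ₗ[k] W} (h1 : ∀ v, f (m.a v) = n.a (f v))
    (h2 : ∀ v, f (m.b v) = n.b (f v)) : m.Eqv n f := by
  constructor
  · intro v
    rw [x_eq, x_eq, map_add, h1]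
  · intro v
    rw [y_eq, y_eq, map_add, h2]

variable {m n}

theorem Eqv.a {f : V →ₗ[k] W} (h : m.Eqv n f) (v : V) : f (m.a v) = n.a (f v) := by
  rw [a_apply, a_apply, map_add, h.1]

theorem Eqv.b {f : V →ₗ[k] W} (h : m.Eqv n f) (v : V) : f (m.b v) = n.b (f v) := by
  rw [b_apply, b_apply, map_add, h.2]

end EqvA

section Maps

variable {V W V' W' : Type} [AddCommGroup V] [Module k V] [AddCommGroup W] [Module k W]
  [AddCommGroup V'] [Module k V'] [AddCommGroup W'] [Module k W']
  {m : NM V} {n : NM W} {m' : NM V'} {n' : NM W'}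

theorem Eqv.map {f : V →ₗ[k] V'} {g : W →ₗ[k] W'} (hf : m.Eqv m' f) (hg : n.Eqv n' g) :
    (m.tens n).Eqv (m'.tens n') (TensorProduct.map f g) := by
  apply eqv_of
  · intro t
    rw [tens_a, tens_a]
    have h : (TensorProduct.map f g) ∘ₗ (TensorProduct.map m.a n.a) =
        (TensorProduct.map m'.a n'.a) ∘ₗ (TensorProduct.map f g) :=
      TensorProduct.ext' fun v w => by
        simp only [LinearMap.comp_apply, TensorProduct.map_tmul, hf.a, hg.a]
    exact LinearMap.congr_fun h t
  · intro t
    rw [tens_b, tens_b]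
    have h : (TensorProduct.map f g) ∘ₗ (TensorProduct.map m.b n.b) =
        (TensorProduct.map m'.b n'.b) ∘ₗ (TensorProduct.map f g) :=
      TensorProduct.ext' fun v w => by
        simp only [LinearMap.comp_apply, TensorProduct.map_tmul, hf.b, hg.b]
    exact LinearMap.congr_fun h t

theorem Eqv.id : m.Eqv m LinearMap.id := ⟨fun _ => rfl, fun _ => rfl⟩

end Maps

section Free

variable {V : Type} [AddCommGroup V] [Module k V] [FiniteDimensional k V] (m : NM V)
  (H : Type) [AddCommGroup H] [Module k H] [FiniteDimensional k H]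

/-- The inclusion of the generators. -/
def e1 : H →ₗ[k] (H × H × H × H) := LinearMap.inl k H (H × H × H)

/-- The last coordinate. -/
def p4 : (H × H × H × H) →ₗ[k] H :=
  LinearMap.snd k H H ∘ₗ LinearMap.snd k H (H × H) ∘ₗ LinearMap.snd k H (H × H × H)

theorem gam_tens_fr : (m.tens (fr H)).gam = 0 := by
  apply le_antisymm _ (gam_nonneg _)
  have key : ∀ t : V ⊗[k] H, (TensorProduct.map LinearMap.id (p4 H))
      ((m.tens (fr H)).nu (TensorProduct.map LinearMap.id (e1 H) t)) =
      TensorProduct.map (m.a ∘ₗ m.b) LinearMap.id t := by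
    have h : (TensorProduct.map LinearMap.id (p4 H)) ∘ₗ (m.tens (fr H)).nu ∘ₗ
        (TensorProduct.map LinearMap.id (e1 H)) = TensorProduct.map (m.a ∘ₗ m.b) LinearMap.id := by
      apply TensorProduct.ext'
      intro v h
      simp only [LinearMap.comp_apply, nu_apply, tens_x, tens_y, TensorProduct.map_tmul,
        LinearMap.id_apply, map_add]
      have e1' : e1 H h = (h, 0, 0, 0) := rfl
      have hb : (fr H).b (h, 0, 0, 0) = (h, 0, h, 0) := by
        change ((h, 0, 0, 0) + (0, 0, h, 0) : H × H × H × H) = _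
        simp
      have ha : (fr H).a (h, 0, 0, 0) = (h, h, 0, 0) := by
        change ((h, 0, 0, 0) + (0, h, 0, 0) : H × H × H × H) = _
        simp
      have hab : (fr H).a (h, 0, h, 0) = (h, h, h, h) := by
        change ((h, 0, h, 0) + (0, h, 0, h) : H × H × H × H) = _
        simp
      rw [e1', hb, ha, hab]
      have q1 : p4 H (h, h, h, h) = h := rfl
      have q2 : p4 H (h, h, 0, 0) = 0 := rfl
      have q3 : p4 H (h, 0, h, 0) = 0 := rfl
      have q4 : p4 H (h, 0, 0, 0) = 0 := rfl
      rw [q1, q2, q3, q4]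
      simp
    intro t
    exact LinearMap.congr_fun h t
  have hinj : Function.Injective
      ((m.tens (fr H)).nu.rangeRestrict ∘ₗ (TensorProduct.map LinearMap.id (e1 H))) := by
    intro t u htu
    have h1 : (m.tens (fr H)).nu (TensorProduct.map LinearMap.id (e1 H) t) =
        (m.tens (fr H)).nu (TensorProduct.map LinearMap.id (e1 H) u) := congrArg Subtype.val htu
    have h2 := congrArg (TensorProduct.map LinearMap.id (p4 H)) h1
    rw [key, key] at h2
    have h3 : ∀ t : V ⊗[k] H, TensorProduct.map (m.a ∘ₗ m.b) LinearMap.id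
        (TensorProduct.map (m.a ∘ₗ m.b) (LinearMap.id : H →ₗ[k] H) t) = t := by
      have h : (TensorProduct.map (m.a ∘ₗ m.b) LinearMap.id) ∘ₗ
          (TensorProduct.map (m.a ∘ₗ m.b) (LinearMap.id : H →ₗ[k] H)) = LinearMap.id :=
        TensorProduct.ext' fun v w => by
          simp only [LinearMap.comp_apply, TensorProduct.map_tmul, LinearMap.id_apply, ← ab, aa, bb]
      intro t
      exact LinearMap.congr_fun h t
    rw [← h3 t, ← h3 u, h2]
  have h := LinearMap.finrank_le_finrank_of_injective hinj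
  rw [finrank_tensorProduct] at h
  unfold gam
  rw [finrank_tensorProduct, finrank_prod, finrank_prod, finrank_prod]
  change finrank k V * finrank k H ≤ (m.tens (fr H)).rk at h
  have e : finrank k V * (finrank k H + (finrank k H + (finrank k H + finrank k H))) =
      4 * (finrank k V * finrank k H) := by ring
  rw [e]
  push_cast
  have h' : ((finrank k V * finrank k H : ℕ) : ℤ) ≤ ((m.tens (fr H)).rk : ℤ) := by exact_mod_cast h
  push_cast at h'
  linarith

end Free

end NM

/-- A finite-dimensional module. -/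
structure BM where
  /-- The underlying space. -/
  V : Type
  [i1 : AddCommGroup V]
  [i2 : Module k V]
  [i3 : FiniteDimensional k V]
  /-- The action. -/
  m : NM V

attribute [instance] BM.i1 BM.i2 BM.i3

namespace BM

/-- Isomorphism. -/
def Iso (A B : BM) : Prop := ∃ e : A.V ≃ₗ[k] B.V, A.m.Eqv B.m (e : A.V →ₗ[k] B.V)

/-- The dimension of the part without free summands. -/
noncomputable def gam (A : BM) : ℤ := A.m.gam

/-- The dimension of the part without free summands of the first syzygy. -/
noncomputable def del (A : BM) : ℤ := A.m.del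

/-- The tensor product. -/
noncomputable def tens (A B : BM) : BM := ⟨A.V ⊗[k] B.V, A.m.tens B.m⟩

/-- The direct sum. -/
def prod (A B : BM) : BM := ⟨A.V × B.V, A.m.prod B.m⟩

variable {A B C D : BM}

theorem Iso.gam (h : A.Iso B) : A.gam = B.gam := by
  obtain ⟨e, he⟩ := h
  exact NM.gam_iso _ _ e he

theorem Iso.del (h : A.Iso B) : A.del = B.del := by
  obtain ⟨e, he⟩ := h
  exact NM.del_iso _ _ e he

theorem gam_prod : (A.prod B).gam = A.gam + B.gam := NM.gam_prod _ _

theorem Iso.refl (A : BM) : A.Iso A := ⟨LinearEquiv.refl k A.V, fun _ => rfl, fun _ => rfl⟩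

theorem Iso.symm (h : A.Iso B) : B.Iso A := by
  obtain ⟨e, he⟩ := h
  exact ⟨e.symm, NM.Eqv.symm _ _ e he⟩

theorem Iso.trans (h : A.Iso B) (h' : B.Iso C) : A.Iso C := by
  obtain ⟨e, he⟩ := h
  obtain ⟨f, hf⟩ := h'
  refine ⟨e.trans f, fun v => ?_, fun v => ?_⟩
  · change f (e (A.m.x v)) = C.m.x (f (e v))
    have h1 : e (A.m.x v) = B.m.x (e v) := he.1 v
    have h2 : f (B.m.x (e v)) = C.m.x (f (e v)) := hf.1 (e v)
    rw [h1, h2]
  · change f (e (A.m.y v)) = C.m.y (f (e v))
    have h1 : e (A.m.y v) = B.m.y (e v) := he.2 v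
    have h2 : f (B.m.y (e v)) = C.m.y (f (e v)) := hf.2 (e v)
    rw [h1, h2]

theorem Iso.tens (h : A.Iso B) (h' : C.Iso D) : (A.tens C).Iso (B.tens D) := by
  obtain ⟨e, he⟩ := h
  obtain ⟨f, hf⟩ := h'
  exact ⟨TensorProduct.congr e f, NM.Eqv.map he hf⟩

theorem iso_assoc (A B C : BM) : ((A.tens B).tens C).Iso (A.tens (B.tens C)) := by
  refine ⟨TensorProduct.assoc k A.V B.V C.V, NM.eqv_of _ _ ?_ ?_⟩
  · intro t
    have h : (TensorProduct.assoc k A.V B.V C.V).toLinearMap ∘ₗ
        (TensorProduct.map (TensorProduct.map A.m.a B.m.a) C.m.a) =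
        (TensorProduct.map A.m.a (TensorProduct.map B.m.a C.m.a)) ∘ₗ
        (TensorProduct.assoc k A.V B.V C.V).toLinearMap :=
      TensorProduct.ext_threefold fun u v w => rfl
    have e1 : (A.tens B).m.a = TensorProduct.map A.m.a B.m.a :=
      LinearMap.ext fun t => NM.tens_a _ _ t
    have e2 : (B.tens C).m.a = TensorProduct.map B.m.a C.m.a :=
      LinearMap.ext fun t => NM.tens_a _ _ t
    change (TensorProduct.assoc k A.V B.V C.V).toLinearMap (((A.tens B).m.tens C.m).a t) =
      ((A.m.tens (B.tens C).m).a ((TensorProduct.assoc k A.V B.V C.V).toLinearMap t))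
    rw [NM.tens_a, NM.tens_a, e1, e2]
    exact LinearMap.congr_fun h t
  · intro t
    have h : (TensorProduct.assoc k A.V B.V C.V).toLinearMap ∘ₗ
        (TensorProduct.map (TensorProduct.map A.m.b B.m.b) C.m.b) =
        (TensorProduct.map A.m.b (TensorProduct.map B.m.b C.m.b)) ∘ₗ
        (TensorProduct.assoc k A.V B.V C.V).toLinearMap :=
      TensorProduct.ext_threefold fun u v w => rfl
    have e1 : (A.tens B).m.b = TensorProduct.map A.m.b B.m.b :=
      LinearMap.ext fun t => NM.tens_b _ _ t
    have e2 : (B.tens C).m.b = TensorProduct.map B.m.b C.m.b :=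
      LinearMap.ext fun t => NM.tens_b _ _ t
    change (TensorProduct.assoc k A.V B.V C.V).toLinearMap (((A.tens B).m.tens C.m).b t) =
      ((A.m.tens (B.tens C).m).b ((TensorProduct.assoc k A.V B.V C.V).toLinearMap t))
    rw [NM.tens_b, NM.tens_b, e1, e2]
    exact LinearMap.congr_fun h t

theorem iso_comm (A B : BM) : (A.tens B).Iso (B.tens A) := by
  refine ⟨TensorProduct.comm k A.V B.V, NM.eqv_of _ _ ?_ ?_⟩
  · intro t
    have h : (TensorProduct.comm k A.V B.V).toLinearMap ∘ₗ (TensorProduct.map A.m.a B.m.a) =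
        (TensorProduct.map B.m.a A.m.a) ∘ₗ (TensorProduct.comm k A.V B.V).toLinearMap :=
      TensorProduct.ext' fun u v => rfl
    change (TensorProduct.comm k A.V B.V).toLinearMap ((A.m.tens B.m).a t) =
      ((B.m.tens A.m).a ((TensorProduct.comm k A.V B.V).toLinearMap t))
    rw [NM.tens_a, NM.tens_a]
    exact LinearMap.congr_fun h t
  · intro t
    have h : (TensorProduct.comm k A.V B.V).toLinearMap ∘ₗ (TensorProduct.map A.m.b B.m.b) =
        (TensorProduct.map B.m.b A.m.b) ∘ₗ (TensorProduct.comm k A.V B.V).toLinearMap :=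
      TensorProduct.ext' fun u v => rfl
    change (TensorProduct.comm k A.V B.V).toLinearMap ((A.m.tens B.m).b t) =
      ((B.m.tens A.m).b ((TensorProduct.comm k A.V B.V).toLinearMap t))
    rw [NM.tens_b, NM.tens_b]
    exact LinearMap.congr_fun h t

theorem iso_right_comm (A B C : BM) : ((A.tens B).tens C).Iso ((A.tens C).tens B) :=
  (iso_assoc A B C).trans (((Iso.refl A).tens (iso_comm B C)).trans (iso_assoc A C B).symm)

/-- The tensor product with a direct sum. -/
theorem iso_prod_right (A B C : BM) : (A.tens (B.prod C)).Iso ((A.tens B).prod (A.tens C)) := by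
  refine ⟨TensorProduct.prodRight k k A.V B.V C.V, NM.eqv_of _ _ ?_ ?_⟩
  · intro t
    have h : (TensorProduct.prodRight k k A.V B.V C.V).toLinearMap ∘ₗ
        (TensorProduct.map A.m.a (B.m.prod C.m).a) =
        ((A.m.tens B.m).prod (A.m.tens C.m)).a ∘ₗ
        (TensorProduct.prodRight k k A.V B.V C.V).toLinearMap := by
      apply TensorProduct.ext'
      rintro u ⟨v, w⟩
      change (A.m.a u ⊗ₜ B.m.a v, A.m.a u ⊗ₜ C.m.a w) =
        ((A.m.tens B.m).a (u ⊗ₜ v), (A.m.tens C.m).a (u ⊗ₜ w))
      rw [NM.tens_a, NM.tens_a]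
      rfl
    change (TensorProduct.prodRight k k A.V B.V C.V).toLinearMap ((A.m.tens (B.m.prod C.m)).a t) =
      _
    rw [NM.tens_a]
    exact LinearMap.congr_fun h t
  · intro t
    have h : (TensorProduct.prodRight k k A.V B.V C.V).toLinearMap ∘ₗ
        (TensorProduct.map A.m.b (B.m.prod C.m).b) =
        ((A.m.tens B.m).prod (A.m.tens C.m)).b ∘ₗ
        (TensorProduct.prodRight k k A.V B.V C.V).toLinearMap := by
      apply TensorProduct.ext'
      rintro u ⟨v, w⟩
      change (A.m.b u ⊗ₜ B.m.b v, A.m.b u ⊗ₜ C.m.b w) =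
        ((A.m.tens B.m).b (u ⊗ₜ v), (A.m.tens C.m).b (u ⊗ₜ w))
      rw [NM.tens_b, NM.tens_b]
      rfl
    change (TensorProduct.prodRight k k A.V B.V C.V).toLinearMap ((A.m.tens (B.m.prod C.m)).b t) =
      _
    rw [NM.tens_b]
    exact LinearMap.congr_fun h t

theorem Iso.prod (h : A.Iso B) (h' : C.Iso D) : (A.prod C).Iso (B.prod D) := by
  obtain ⟨e, he⟩ := h
  obtain ⟨f, hf⟩ := h'
  refine ⟨e.prodCongr f, fun v => ?_, fun v => ?_⟩
  · exact Prod.ext (he.1 v.1) (hf.1 v.2)
  · exact Prod.ext (he.2 v.1) (hf.2 v.2)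

/-- `A` is a first syzygy of `B`. -/
def Syz (A B : BM) : Prop :=
  ∃ (H : Type) (_ : AddCommGroup H) (_ : Module k H) (_ : FiniteDimensional k H)
    (i : A.V →ₗ[k] (H × H × H × H)) (p : (H × H × H × H) →ₗ[k] B.V),
    A.m.Eqv (NM.fr H) i ∧ (NM.fr H).Eqv B.m p ∧ Function.Injective i ∧ Function.Surjective p ∧
    Function.Exact i p

theorem Syz.gam_tens (h : A.Syz B) (Z : BM) : (Z.tens A).gam = (Z.tens B).del := by
  obtain ⟨H, _, _, _, i, p, hi, hp, hinj, hsur, hex⟩ := h
  refine NM.gam_eq_del (Z.m.tens A.m) (Z.m.tens (NM.fr H)) (Z.m.tens B.m)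
    (TensorProduct.map LinearMap.id i) (TensorProduct.map LinearMap.id p)
    (NM.Eqv.map NM.Eqv.id hi) (NM.Eqv.map NM.Eqv.id hp) ?_ ?_ ?_ (NM.gam_tens_fr _ _)
  · exact Module.Flat.lTensor_preserves_injective_linearMap i hinj
  · exact LinearMap.lTensor_surjective Z.V hsur
  · exact (LinearMap.exact_iff.mp (lTensor_exact Z.V hex hsur)).symm

end BM

end Pool.Agent.R793.BS
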