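import Pool.Agent.R793.BS.Tens

/-!
The syzygies of the trivial module of the four-group.
-/

set_option autoImplicit false

namespace Pool.Agent.R793.BS

open Module TensorProduct

section Maps

/-- Forget the first coordinate. -/
def tl (m : ℕ) : (Fin (m + 1) → k) →ₗ[k] (Fin m → k) where
  toFun f := fun i => f i.succ
  map_add' _ _ := rfl
  map_smul' _ _ := rfl

/-- Forget the last coordinate. -/
def it (m : ℕ) : (Fin (m + 1) → k) →ₗ[k] (Fin m → k) where
  toFun f := fun i => f i.castSucc
  map_add' _ _ := rfl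
  map_smul' _ _ := rfl

/-- Add a zero as the first coordinate. -/
def cs (m : ℕ) : (Fin m → k) →ₗ[k] (Fin (m + 1) → k) where
  toFun f := Fin.cons 0 f
  map_add' f g := by
    funext i
    refine Fin.cases ?_ (fun j => ?_) i
    · simp
    · simp
  map_smul' c f := by
    funext i
    refine Fin.cases ?_ (fun j => ?_) i
    · simp
    · simp

/-- Add a zero as the last coordinate. -/
def sn (m : ℕ) : (Fin m → k) →ₗ[k] (Fin (m + 1) → k) where
  toFun f := Fin.snoc f 0
  map_add' f g := by
    funext i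
    refine Fin.lastCases ?_ (fun j => ?_) i
    · simp
    · simp
  map_smul' c f := by
    funext i
    refine Fin.lastCases ?_ (fun j => ?_) i
    · simp
    · simp

theorem cs_zero {m : ℕ} (f : Fin m → k) : cs m f 0 = 0 :=
  Fin.cons_zero (α := fun _ => k) 0 f

theorem cs_succ {m : ℕ} (f : Fin m → k) (i : Fin m) : cs m f i.succ = f i :=
  Fin.cons_succ (α := fun _ => k) 0 f i

theorem sn_last {m : ℕ} (f : Fin m → k) : sn m f (Fin.last m) = 0 :=
  Fin.snoc_last (α := fun _ => k) 0 f

theorem sn_castSucc {m : ℕ} (f : Fin m → k) (i : Fin m) : sn m f i.castSucc = f i :=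
  Fin.snoc_castSucc (α := fun _ => k) 0 f i

end Maps

/-- The module with `m + 1` generators and `m`-dimensional socle. -/
def U (m : ℕ) : NM ((Fin (m + 1) → k) × (Fin m → k)) where
  x := LinearMap.inr k _ _ ∘ₗ tl m ∘ₗ LinearMap.fst k _ _
  y := LinearMap.inr k _ _ ∘ₗ it m ∘ₗ LinearMap.fst k _ _
  xx _ := by
    change ((0, tl m 0) : (Fin (m + 1) → k) × (Fin m → k)) = 0
    rw [map_zero]; rfl
  yy _ := by
    change ((0, it m 0) : (Fin (m + 1) → k) × (Fin m → k)) = 0
    rw [map_zero]; rfl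
  xy _ := by
    change ((0, tl m 0) : (Fin (m + 1) → k) × (Fin m → k)) = (0, it m 0)
    rw [map_zero, map_zero]

/-- The module with `m` generators and `m + 1`-dimensional socle. -/
def D (m : ℕ) : NM ((Fin m → k) × (Fin (m + 1) → k)) where
  x := LinearMap.inr k _ _ ∘ₗ cs m ∘ₗ LinearMap.fst k _ _
  y := LinearMap.inr k _ _ ∘ₗ sn m ∘ₗ LinearMap.fst k _ _
  xx _ := by
    change ((0, cs m 0) : (Fin m → k) × (Fin (m + 1) → k)) = 0
    rw [map_zero]; rfl
  yy _ := by
    change ((0, sn m 0) : (Fin m → k) × (Fin (m + 1) → k)) = 0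
    rw [map_zero]; rfl
  xy _ := by
    change ((0, cs m 0) : (Fin m → k) × (Fin (m + 1) → k)) = (0, sn m 0)
    rw [map_zero, map_zero]

theorem gam_U (m : ℕ) : (U m).gam = 2 * m + 1 := by
  have h : (U m).nu = 0 := by
    apply LinearMap.ext
    intro v
    change ((0, tl m 0) : (Fin (m + 1) → k) × (Fin m → k)) = 0
    rw [map_zero]; rfl
  unfold NM.gam NM.rk
  rw [h, LinearMap.range_zero, finrank_bot, finrank_prod, finrank_fin_fun, finrank_fin_fun]
  push_cast
  ring

theorem gam_D (m : ℕ) : (D m).gam = 2 * m + 1 := by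
  have h : (D m).nu = 0 := by
    apply LinearMap.ext
    intro v
    change ((0, cs m 0) : (Fin m → k) × (Fin (m + 1) → k)) = 0
    rw [map_zero]; rfl
  unfold NM.gam NM.rk
  rw [h, LinearMap.range_zero, finrank_bot, finrank_prod, finrank_fin_fun, finrank_fin_fun]
  push_cast
  ring

/-- The syzygies with nonnegative index. -/
def BU (m : ℕ) : BM := ⟨_, U m⟩

/-- The syzygies with nonpositive index. -/
def BD (m : ℕ) : BM := ⟨_, D m⟩

/-- A map to a free module. -/
def mi {A B H : Type} [AddCommGroup A] [Module k A] [AddCommGroup B] [Module k B]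
    [AddCommGroup H] [Module k H] (f g : A →ₗ[k] H) (h : B →ₗ[k] H) :
    (A × B) →ₗ[k] (H × H × H × H) where
  toFun v := (0, f v.1, g v.1, h v.2)
  map_add' v w := by
    simp only [Prod.fst_add, Prod.snd_add, map_add, Prod.mk_add_mk, add_zero]
  map_smul' c v := by
    simp only [Prod.smul_fst, Prod.smul_snd, map_smul, Prod.smul_mk, smul_zero, RingHom.id_apply]

/-- A map from a free module. -/
def mp {B H : Type} [AddCommGroup B] [Module k B]
    [AddCommGroup H] [Module k H] (f g : H →ₗ[k] B) :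
    (H × H × H × H) →ₗ[k] (H × B) where
  toFun v := (v.1, f v.2.1 + g v.2.2.1)
  map_add' v w := by
    simp only [Prod.fst_add, Prod.snd_add, map_add, Prod.mk_add_mk, Prod.mk.injEq, true_and]
    abel
  map_smul' c v := by
    simp only [Prod.smul_fst, Prod.smul_snd, map_smul, Prod.smul_mk, smul_add, RingHom.id_apply]

theorem syz_U (m : ℕ) : (BU (m + 1)).Syz (BU m) := by
  refine ⟨Fin (m + 1) → k, inferInstance, inferInstance, inferInstance,
    mi (it (m + 1)) (tl (m + 1)) LinearMap.id, mp (tl m) (it m),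
    ⟨?_, ?_⟩, ⟨?_, ?_⟩, ?_, ?_, ?_⟩
  · rintro ⟨p, q⟩
    change ((0, it (m + 1) 0, tl (m + 1) 0, tl (m + 1) p) :
      (Fin (m + 1) → k) × (Fin (m + 1) → k) × (Fin (m + 1) → k) × (Fin (m + 1) → k)) =
      (0, 0, 0, tl (m + 1) p)
    rw [map_zero, map_zero]
  · rintro ⟨p, q⟩
    change ((0, it (m + 1) 0, tl (m + 1) 0, it (m + 1) p) :
      (Fin (m + 1) → k) × (Fin (m + 1) → k) × (Fin (m + 1) → k) × (Fin (m + 1) → k)) =
      (0, 0, 0, it (m + 1) p)
    rw [map_zero, map_zero]
  · rintro ⟨α, β, γ, δ⟩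
    change ((0, tl m α + it m 0) : (Fin (m + 1) → k) × (Fin m → k)) = (0, tl m α)
    rw [map_zero, add_zero]
  · rintro ⟨α, β, γ, δ⟩
    change ((0, tl m 0 + it m α) : (Fin (m + 1) → k) × (Fin m → k)) = (0, it m α)
    rw [map_zero, zero_add]
  · rintro ⟨p, q⟩ ⟨p', q'⟩ h
    have h1 : it (m + 1) p = it (m + 1) p' := congrArg (fun v => v.2.1) h
    have h2 : tl (m + 1) p = tl (m + 1) p' := congrArg (fun v => v.2.2.1) h
    have h3 : q = q' := congrArg (fun v => v.2.2.2) h
    have h4 : p = p' := by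
      funext i
      refine Fin.cases ?_ (fun j => ?_) i
      · exact congrFun h1 0
      · exact congrFun h2 j
    rw [h3, h4]
  · rintro ⟨p, q⟩
    refine ⟨(p, cs m q, 0, 0), ?_⟩
    change ((p, tl m (cs m q) + it m 0) : (Fin (m + 1) → k) × (Fin m → k)) = (p, q)
    rw [map_zero, add_zero]
    rfl
  · rintro ⟨α, β, γ, δ⟩
    constructor
    · intro h
      have h1 : α = 0 := congrArg Prod.fst h
      have h2 : tl m β + it m γ = 0 := congrArg Prod.snd h
      refine ⟨(Fin.cons (β 0) γ, δ), ?_⟩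
      have h3 : it (m + 1) (Fin.cons (β 0) γ : Fin (m + 1 + 1) → k) = β := by
        funext i
        refine Fin.cases ?_ (fun j => ?_) i
        · rfl
        · change (Fin.cons (β 0) γ : Fin (m + 1 + 1) → k) (j.succ.castSucc) = β j.succ
          have h4 : β j.succ + γ j.castSucc = 0 := congrFun h2 j
          rw [← Fin.succ_castSucc, Fin.cons_succ]
          rw [eq_comm]
          calc β j.succ = β j.succ + (γ j.castSucc + γ j.castSucc) := by
                rw [two_zero (V := k), add_zero]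
            _ = γ j.castSucc := by rw [← add_assoc, h4, zero_add]
      have h5 : tl (m + 1) (Fin.cons (β 0) γ : Fin (m + 1 + 1) → k) = γ := by
        funext i
        rfl
      change ((0, it (m + 1) (Fin.cons (β 0) γ : Fin (m + 1 + 1) → k),
        tl (m + 1) (Fin.cons (β 0) γ : Fin (m + 1 + 1) → k), δ) :
        (Fin (m + 1) → k) × (Fin (m + 1) → k) × (Fin (m + 1) → k) × (Fin (m + 1) → k)) = _
      rw [h3, h5, h1]
    · rintro ⟨⟨p, q⟩, h⟩
      rw [← h]
      change ((0, tl m (it (m + 1) p) + it m (tl (m + 1) p)) :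
        (Fin (m + 1) → k) × (Fin m → k)) = 0
      have h1 : tl m (it (m + 1) p) = it m (tl (m + 1) p) := by
        funext j
        rfl
      rw [h1, two_zero]
      rfl

theorem syz_D (m : ℕ) : (BD m).Syz (BD (m + 1)) := by
  refine ⟨Fin (m + 1) → k, inferInstance, inferInstance, inferInstance,
    mi (sn m) (cs m) LinearMap.id, mp (cs (m + 1)) (sn (m + 1)),
    ⟨?_, ?_⟩, ⟨?_, ?_⟩, ?_, ?_, ?_⟩
  · rintro ⟨p, q⟩
    change ((0, sn m 0, cs m 0, cs m p) :
      (Fin (m + 1) → k) × (Fin (m + 1) → k) × (Fin (m + 1) → k) × (Fin (m + 1) → k)) =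
      (0, 0, 0, cs m p)
    rw [map_zero, map_zero]
  · rintro ⟨p, q⟩
    change ((0, sn m 0, cs m 0, sn m p) :
      (Fin (m + 1) → k) × (Fin (m + 1) → k) × (Fin (m + 1) → k) × (Fin (m + 1) → k)) =
      (0, 0, 0, sn m p)
    rw [map_zero, map_zero]
  · rintro ⟨α, β, γ, δ⟩
    change ((0, cs (m + 1) α + sn (m + 1) 0) : (Fin (m + 1) → k) × (Fin (m + 1 + 1) → k)) =
      (0, cs (m + 1) α)
    rw [map_zero, add_zero]
  · rintro ⟨α, β, γ, δ⟩
    change ((0, cs (m + 1) 0 + sn (m + 1) α) : (Fin (m + 1) → k) × (Fin (m + 1 + 1) → k)) =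
      (0, sn (m + 1) α)
    rw [map_zero, zero_add]
  · rintro ⟨p, q⟩ ⟨p', q'⟩ h
    have h2 : cs m p = cs m p' := congrArg (fun v => v.2.2.1) h
    have h3 : q = q' := congrArg (fun v => v.2.2.2) h
    have h4 : p = p' := by
      funext i
      have := congrFun h2 i.succ
      rwa [cs_succ, cs_succ] at this
    rw [h3, h4]
  · rintro ⟨p, q⟩
    refine ⟨(p, tl (m + 1) q, Fin.cons (q 0) 0, 0), ?_⟩
    change ((p, cs (m + 1) (tl (m + 1) q) + sn (m + 1) (Fin.cons (q 0) 0 : Fin (m + 1) → k)) :
      (Fin (m + 1) → k) × (Fin (m + 1 + 1) → k)) = (p, q)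
    congr 1
    funext i
    refine Fin.cases ?_ (fun j => ?_) i
    · rw [Pi.add_apply, cs_zero, zero_add]
      change sn (m + 1) _ (Fin.castSucc 0) = _
      rw [sn_castSucc]
      rfl
    · rw [Pi.add_apply, cs_succ]
      have h1 : sn (m + 1) (Fin.cons (q 0) 0 : Fin (m + 1) → k) j.succ = 0 := by
        refine Fin.lastCases ?_ (fun l => ?_) j
        · rw [Fin.succ_last, sn_last]
        · rw [Fin.succ_castSucc, sn_castSucc, Fin.cons_succ]
          rfl
      rw [h1, add_zero]
      rfl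
  · rintro ⟨α, β, γ, δ⟩
    constructor
    · intro h
      have h1 : α = 0 := congrArg Prod.fst h
      have h2 : cs (m + 1) β + sn (m + 1) γ = 0 := congrArg Prod.snd h
      refine ⟨(tl m γ, δ), ?_⟩
      have h3 : sn m (tl m γ) = β := by
        funext i
        have h4 := congrFun h2 i.succ
        rw [Pi.add_apply, cs_succ, Pi.zero_apply] at h4
        have h6 : β i = sn (m + 1) γ i.succ := by
          calc β i = β i + (sn (m + 1) γ i.succ + sn (m + 1) γ i.succ) := by
                rw [two_zero (V := k), add_zero]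
            _ = _ := by rw [← add_assoc, h4, zero_add]
        rw [h6]
        refine Fin.lastCases ?_ (fun j => ?_) i
        · rw [sn_last, Fin.succ_last, sn_last]
        · rw [sn_castSucc, Fin.succ_castSucc, sn_castSucc]
          rfl
      have h5 : cs m (tl m γ) = γ := by
        funext i
        refine Fin.cases ?_ (fun j => ?_) i
        · rw [cs_zero]
          have h4 := congrFun h2 0
          rw [Pi.add_apply, cs_zero, Pi.zero_apply, zero_add] at h4
          have h6 : sn (m + 1) γ (Fin.castSucc 0) = γ 0 := sn_castSucc _ _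
          exact h4.symm.trans h6
        · rw [cs_succ]
          rfl
      change ((0, sn m (tl m γ), cs m (tl m γ), δ) :
        (Fin (m + 1) → k) × (Fin (m + 1) → k) × (Fin (m + 1) → k) × (Fin (m + 1) → k)) = _
      rw [h3, h5, h1]
    · rintro ⟨⟨p, q⟩, h⟩
      rw [← h]
      change ((0, cs (m + 1) (sn m p) + sn (m + 1) (cs m p)) :
        (Fin (m + 1) → k) × (Fin (m + 1 + 1) → k)) = 0
      have h1 : cs (m + 1) (sn m p) = sn (m + 1) (cs m p) := by
        funext j
        refine Fin.cases ?_ (fun j => ?_) j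
        · rw [cs_zero]
          have h6 : sn (m + 1) (cs m p) (Fin.castSucc 0) = cs m p 0 := sn_castSucc _ _
          rw [cs_zero] at h6
          exact h6.symm
        · rw [cs_succ]
          refine Fin.lastCases ?_ (fun l => ?_) j
          · rw [sn_last, Fin.succ_last, sn_last]
          · rw [sn_castSucc, Fin.succ_castSucc, sn_castSucc, cs_succ]
      rw [h1, two_zero]
      rfl

/-- The modules for the index `0` agree. -/
theorem iso_zero : (BU 0).Iso (BD 0) := by
  refine ⟨LinearEquiv.prodComm k _ _, fun v => ?_, fun v => ?_⟩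
  · apply Prod.ext
    · exact Subsingleton.elim _ _
    · funext i
      change (0 : Fin 1 → k) i = cs 0 v.2 i
      obtain rfl : i = 0 := Fin.fin_one_eq_zero i
      rw [cs_zero]
      rfl
  · apply Prod.ext
    · exact Subsingleton.elim _ _
    · funext i
      change (0 : Fin 1 → k) i = sn 0 v.2 i
      obtain rfl : i = Fin.last 0 := Fin.fin_one_eq_zero i
      rw [sn_last]
      rfl

theorem BM.Syz.congr {A B C : BM} (h : A.Syz C) (h' : B.Iso A) : B.Syz C := by
  obtain ⟨H, i1, i2, i3, i, p, hi, hp, hinj, hsur, hex⟩ := h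
  obtain ⟨e, he⟩ := h'
  refine ⟨H, i1, i2, i3, i ∘ₗ (e : B.V →ₗ[k] A.V), p, ⟨?_, ?_⟩, hp, hinj.comp e.injective, hsur, ?_⟩
  · intro v
    have h1 : e (B.m.x v) = A.m.x (e v) := he.1 v
    change i (e (B.m.x v)) = _
    rw [h1, hi.1]
    rfl
  · intro v
    have h1 : e (B.m.y v) = A.m.y (e v) := he.2 v
    change i (e (B.m.y v)) = _
    rw [h1, hi.2]
    rfl
  · intro v
    rw [hex v]
    constructor
    · rintro ⟨w, rfl⟩
      exact ⟨e.symm w, congrArg i (e.apply_symm_apply w)⟩
    · rintro ⟨w, rfl⟩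
      exact ⟨e w, rfl⟩

/-- The syzygies of the trivial module. -/
def BW : ℤ → BM
  | Int.ofNat m => BU m
  | Int.negSucc m => BD (m + 1)

theorem syz_W (i : ℤ) : (BW (i + 1)).Syz (BW i) := by
  cases i with
  | ofNat m => exact syz_U m
  | negSucc m =>
    cases m with
    | zero => exact (syz_D 0).congr iso_zero
    | succ m => exact syz_D (m + 1)

theorem gam_W (i : ℤ) : (BW i).gam = 2 * |i| + 1 := by
  cases i with
  | ofNat m =>
    change (U m).gam = 2 * |(m : ℤ)| + 1
    rw [gam_U, Nat.abs_cast]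
  | negSucc m =>
    change (D (m + 1)).gam = _
    rw [gam_D, Int.abs_eq_natAbs, Int.natAbs_negSucc]

/-- Tensoring with the trivial module. -/
theorem iso_tens_zero (Z : BM) : (Z.tens (BW 0)).Iso Z := by
  let f : ((Fin 1 → k) × (Fin 0 → k)) ≃ₗ[k] k :=
    { toFun := fun v => v.1 0
      map_add' := fun _ _ => rfl
      map_smul' := fun _ _ => rfl
      invFun := fun c => (fun _ => c, 0)
      left_inv := fun v => by
        apply Prod.ext
        · funext i
          obtain rfl : i = 0 := Subsingleton.elim _ _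
          rfl
        · exact Subsingleton.elim _ _
      right_inv := fun _ => rfl }
  have hx : (U 0).x = 0 := by
    apply LinearMap.ext
    intro v
    apply Prod.ext
    · rfl
    · exact Subsingleton.elim _ _
  have hy : (U 0).y = 0 := by
    apply LinearMap.ext
    intro v
    apply Prod.ext
    · rfl
    · exact Subsingleton.elim _ _
  have ha : (U 0).a = LinearMap.id := by
    unfold NM.a
    rw [hx, add_zero]
  have hb : (U 0).b = LinearMap.id := by
    unfold NM.b
    rw [hy, add_zero]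
  let g : (Z.V ⊗[k] ((Fin 1 → k) × (Fin 0 → k))) ≃ₗ[k] Z.V :=
    (TensorProduct.congr (LinearEquiv.refl k Z.V) f).trans (TensorProduct.rid k Z.V)
  refine ⟨g, NM.eqv_of _ _ ?_ ?_⟩
  · intro t
    change g ((Z.m.tens (U 0)).a t) = Z.m.a (g t)
    rw [NM.tens_a, ha]
    have h : g.toLinearMap ∘ₗ (TensorProduct.map Z.m.a LinearMap.id) = Z.m.a ∘ₗ g.toLinearMap := by
      apply TensorProduct.ext'
      intro u v
      change f v • Z.m.a u = Z.m.a (f v • u)
      rw [map_smul]
    exact LinearMap.congr_fun h t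
  · intro t
    change g ((Z.m.tens (U 0)).b t) = Z.m.b (g t)
    rw [NM.tens_b, hb]
    have h : g.toLinearMap ∘ₗ (TensorProduct.map Z.m.b LinearMap.id) = Z.m.b ∘ₗ g.toLinearMap := by
      apply TensorProduct.ext'
      intro u v
      change f v • Z.m.b u = Z.m.b (f v • u)
      rw [map_smul]
    exact LinearMap.congr_fun h t

/-- The dimension of the part of `Z ⊗ Ω^i` without free summands. -/
noncomputable def G (Z : BM) (i : ℤ) : ℤ := (Z.tens (BW i)).gam

theorem G_iso {Z Z' : BM} (h : Z.Iso Z') (i : ℤ) : G Z i = G Z' i := (h.tens (BM.Iso.refl _)).gam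

theorem G_shift (Z : BM) (i : ℤ) : G Z (i + 1) = ((Z.tens (BW i)).tens (BW 1)).gam := by
  have h1 : ((Z.tens (BW i)).tens (BW 1)).gam = ((Z.tens (BW i)).tens (BW 0)).del :=
    (syz_W 0).gam_tens _
  unfold G
  rw [(syz_W i).gam_tens, h1]
  exact (iso_tens_zero _).del.symm

theorem G_one (Z : BM) (i : ℤ) : G (Z.tens (BW 1)) i = G Z (i + 1) := by
  rw [G_shift]
  exact (BM.iso_right_comm Z (BW 1) (BW i)).gam

theorem G_neg_one (Z : BM) (i : ℤ) : G (Z.tens (BW (-1))) i = G Z (i - 1) := by
  have h1 := G_shift (Z.tens (BW (-1))) (i - 1)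
  rw [sub_add_cancel] at h1
  rw [h1]
  have h2 : (((Z.tens (BW (-1))).tens (BW (i - 1))).tens (BW 1)).Iso
      (((Z.tens (BW (i - 1))).tens (BW 1)).tens (BW (-1))) :=
    ((BM.iso_right_comm Z (BW (-1)) (BW (i - 1))).tens (BM.Iso.refl _)).trans
      (BM.iso_right_comm _ _ _)
  rw [h2.gam]
  have h3 := G_one (Z.tens (BW (i - 1))) (-1)
  unfold G at h3
  rw [h3, neg_add_cancel, (iso_tens_zero _).gam]
  rfl

theorem G_zero (Z : BM) (i : ℤ) : G (Z.tens (BW 0)) i = G Z i := G_iso (iso_tens_zero Z) i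

theorem G_zero' (Z : BM) : G Z 0 = Z.gam := (iso_tens_zero Z).gam

theorem G_prod (Z A B : BM) (i : ℤ) :
    G (Z.tens (A.prod B)) i = G (Z.tens A) i + G (Z.tens B) i := by
  unfold G
  have h1 : ((Z.tens (A.prod B)).tens (BW i)).Iso
      (((Z.tens A).tens (BW i)).prod ((Z.tens B).tens (BW i))) :=
    ((BM.iso_prod_right Z A B).tens (BM.Iso.refl _)).trans <|
      (BM.iso_comm _ _).trans <| (BM.iso_prod_right _ _ _).trans <|
        (BM.iso_comm _ _).prod (BM.iso_comm _ _)
  rw [h1.gam, BM.gam_prod]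

/-- The module of the counterexample. -/
def BMM : BM := (BW 0).prod ((BW 0).prod ((BW 1).prod (BW (-1))))

theorem G_step (Z : BM) (i : ℤ) :
    G (Z.tens BMM) i = 2 * G Z i + G Z (i + 1) + G Z (i - 1) := by
  unfold BMM
  rw [G_prod, G_prod, G_prod, G_zero, G_one, G_neg_one]
  ring

end Pool.Agent.R793.BS
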